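import Pool.Agent.H33SSE.PLink

/-!
# Linked classes modulo `y - m`
-/

set_option autoImplicit false

namespace Pool.Agent.H33SSE

open Matrix Pool.Agent.TH441.SSE2

/-- The classes of `a` and `b` modulo `y - m` are linked. -/
def E (m y a b : ℤ) : Prop :=
  ∀ a' b' : ℤ, (y - m) ∣ a' - a → (y - m) ∣ b' - b → 2 * a' ≤ y - m → -(y - m) ≤ 2 * a' →
    2 * b' ≤ y - m → -(y - m) ≤ 2 * b' → Lk m y a' b'

lemma exists_rep (L a : ℤ) (hL : 0 < L) : ∃ a', L ∣ a' - a ∧ 2 * a' ≤ L ∧ -L ≤ 2 * a' := by
  have h1 := Int.emod_nonneg a hL.ne'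
  have h2 := Int.emod_lt_of_pos a hL
  have h3 := Int.emod_add_mul_ediv a L
  rcases le_or_gt (2 * (a % L)) L with h | h
  · exact ⟨a % L, ⟨-(a / L), by linarith⟩, h, by linarith⟩
  · exact ⟨a % L - L, ⟨-(a / L) - 1, by linarith⟩, by linarith, by linarith⟩

section

variable {m y : ℤ} (hL : 12 * |m| + 36 ≤ y - m)

include hL

lemma E.trans {a b c : ℤ} (h1 : E m y a b) (h2 : E m y b c) : E m y a c := by
  intro a' c' ha hc a1 a2 c1 c2
  obtain ⟨b', hb, b1, b2⟩ := exists_rep (y - m) b (by have := abs_nonneg m; linarith)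
  exact (h1 a' b' ha hb a1 a2 b1 b2).trans hL b1 b2 (h2 b' c' hb hc b1 b2 c1 c2)

omit hL in
lemma E.symm {a b : ℤ} (h1 : E m y a b) : E m y b a := by
  intro b' a' hb ha b1 b2 a1 a2
  exact (h1 a' b' ha hb a1 a2 b1 b2).symm

lemma E.congr {a b : ℤ} (h : (y - m) ∣ a - b) : E m y a b := by
  intro a' b' ha hb a1 a2 b1 b2
  have hLpos : 0 < y - m := by have := abs_nonneg m; linarith
  obtain ⟨c, hc⟩ : (y - m) ∣ a' - b' := by
    have e : a' - b' = (a' - a) + (a - b) - (b' - b) := by ring
    rw [e]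
    exact dvd_sub (dvd_add ha h) hb
  have c1 : c ≤ 1 := by
    by_contra hneg
    push Not at hneg
    have : (y - m) * 2 ≤ (y - m) * c := mul_le_mul_of_nonneg_left hneg hLpos.le
    linarith
  have c2 : -1 ≤ c := by
    by_contra hneg
    push Not at hneg
    have : (y - m) * c ≤ (y - m) * (-2) := mul_le_mul_of_nonneg_left (by linarith) hLpos.le
    linarith
  have hcc : c = -1 ∨ c = 0 ∨ c = 1 := by omega
  rcases hcc with h0 | h0 | h0
  · rw [h0] at hc
    have : b' = -a' := by linarith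
    rw [this]
    exact Lk.neg hL a1 a2
  · rw [h0] at hc
    have : b' = a' := by linarith
    rw [this]
    exact Lk.refl hL a1 a2
  · rw [h0] at hc
    have : b' = -a' := by linarith
    rw [this]
    exact Lk.neg hL a1 a2

lemma E.refl (a : ℤ) : E m y a a := E.congr hL (by simp)

lemma E.neg (a : ℤ) : E m y a (-a) := by
  intro a' b' ha hb a1 a2 b1 b2
  have h1 := E.refl hL a a' (-b') ha (by
    have e : -b' - a = -(b' - -a) := by ring
    rw [e]; exact (dvd_neg).mpr hb) a1 a2 (by linarith) (by linarith)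
  have h2 := Lk.neg (a := -b') hL (by linarith) (by linarith)
  rw [neg_neg] at h2
  exact h1.trans hL (by linarith) (by linarith) h2

lemma E.step {p : ℤ} (hp : 2 ≤ p) (hM : 8 * (|m| + 2 * p) ≤ y - m) (hdiv : p ∣ y ∨ p ∣ m)
    (a : ℤ) : E m y a (p * a) := by
  intro a' b' ha hb a1 a2 b1 b2
  obtain ⟨c, hc⟩ : (y - m) ∣ p * a' - b' := by
    have e : p * a' - b' = p * (a' - a) - (b' - p * a) := by ring
    rw [e]
    exact dvd_sub (Dvd.dvd.mul_left ha p) hb
  exact plink m y p a' b' c hL hp hM a1 a2 b1 b2 (by linarith) hdiv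

lemma E.mul (n : ℕ) : n ≠ 0 → (∀ p : ℕ, p.Prime → p ∣ n → ∀ a, E m y a (p * a)) →
    ∀ a, E m y a (n * a) := by
  induction n using Nat.recOnMul with
  | zero => intro h; exact absurd rfl h
  | one => intro _ _ a; simpa using E.refl hL a
  | prime p hp => intro _ h a; exact h p hp dvd_rfl a
  | mul b c hb hc =>
    intro h0 h a
    have hb0 : b ≠ 0 := left_ne_zero_of_mul h0
    have hc0 : c ≠ 0 := right_ne_zero_of_mul h0
    have h1 := hc hc0 (fun p hp hpc => h p hp (hpc.mul_left b)) a
    have h2 := hb hb0 (fun p hp hpb => h p hp (hpb.mul_right c)) (c * a)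
    have e : ((b * c : ℕ) : ℤ) * a = b * (c * a) := by push_cast; ring
    rw [e]
    exact h1.trans hL h2

end

/-- Every prime divisor of the determinant preserves the class. -/
lemma E.prime {m y : ℤ} (hm : m ≠ 0) (hy : 497 * |m| ≤ y) (p : ℕ) (hp : p.Prime)
    (hdiv : (p : ℤ) ∣ m * y) (a : ℤ) : E m y a (p * a) := by
  have hm1 : 1 ≤ |m| := Int.one_le_abs hm
  have hml := le_abs_self m
  have hmr := neg_abs_le m
  have hL : 12 * |m| + 36 ≤ y - m := by linarith
  have hp2 : (2 : ℤ) ≤ p := by exact_mod_cast hp.two_le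
  have hstepm : ∀ q : ℕ, q.Prime → (q : ℤ) ∣ m → ∀ a, E m y a (q * a) := by
    intro q hq hqm a
    have hq2 : (2 : ℤ) ≤ q := by exact_mod_cast hq.two_le
    have hqm' : (q : ℤ) ≤ |m| := Int.le_of_dvd (by linarith) ((dvd_abs _ _).mpr hqm)
    exact E.step hL hq2 (by linarith) (Or.inr hqm) a
  have hstepy : ∀ q : ℕ, q.Prime → (q : ℤ) ∣ y → 20 * (q : ℤ) ≤ y → ∀ a, E m y a (q * a) := by
    intro q hq hqy hq20 a
    have hq2 : (2 : ℤ) ≤ q := by exact_mod_cast hq.two_le
    exact E.step hL hq2 (by linarith) (Or.inl hqy) a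
  have hpp : Prime (p : ℤ) := Nat.prime_iff_prime_int.mp hp
  rcases hpp.dvd_or_dvd hdiv with h | h
  · exact hstepm p hp h a
  · rcases le_or_gt (20 * (p : ℤ)) y with h20 | h20
    · exact hstepy p hp h h20 a
    · obtain ⟨w, hw⟩ := h
      have hw0 : 0 < w := by
        by_contra hneg
        push Not at hneg
        have : (p : ℤ) * w ≤ 0 := mul_nonpos_of_nonneg_of_nonpos (by linarith) hneg
        linarith
      have hw20 : w < 20 := by
        by_contra hneg
        push Not at hneg
        have : (p : ℤ) * 20 ≤ p * w := mul_le_mul_of_nonneg_left hneg (by linarith)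
        linarith
      -- multiplication by `|m|`
      have h1 : E m y a ((m.natAbs : ℤ) * a) := by
        refine E.mul hL m.natAbs (Int.natAbs_ne_zero.mpr hm) ?_ a
        intro q hq hqm
        exact hstepm q hq (Int.natCast_dvd.mpr hqm)
      have h2 : E m y a (m * a) := by
        rcases Int.natAbs_eq m with h | h
        · rw [h]
          rw [← h]
          convert h1 using 2
        · have h3 := h1.trans hL (E.neg hL _)
          have e : -((m.natAbs : ℤ) * a) = m * a := by
            conv_rhs => rw [h]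
            ring
          rwa [e] at h3
      have h3 : E m y (m * a) (y * a) := by
        apply E.congr hL
        exact ⟨-a, by ring⟩
      -- multiplication by `w`
      obtain ⟨w', hw'⟩ : ∃ w' : ℕ, (w' : ℤ) = w := ⟨w.toNat, Int.toNat_of_nonneg hw0.le⟩
      have h4 : E m y (p * a) ((w' : ℤ) * (p * a)) := by
        refine E.mul hL w' (by rintro rfl; simp at hw'; linarith) ?_ (p * a)
        intro q hq hqw b
        have hqw1 : (q : ℤ) ∣ w := by rw [← hw']; exact_mod_cast hqw
        have hq19 : (q : ℤ) ≤ w := Int.le_of_dvd hw0 hqw1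
        exact hstepy q hq (by rw [hw]; exact hqw1.mul_left _) (by linarith) b
      have e : (w' : ℤ) * (p * a) = y * a := by rw [hw', hw]; ring
      rw [e] at h4
      exact (h2.trans hL h3).trans hL h4.symm

/-- Every divisor of a power of the determinant preserves the class. -/
lemma E.dvd {m y : ℤ} (hm : m ≠ 0) (hy : 497 * |m| ≤ y) (l : ℕ) (r : ℤ) (hr0 : r ≠ 0)
    (hr : r ∣ (m * y) ^ l) (a : ℤ) : E m y a (r * a) := by
  have hm1 : 1 ≤ |m| := Int.one_le_abs hm
  have hml := le_abs_self m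
  have hL : 12 * |m| + 36 ≤ y - m := by linarith
  have h1 : E m y a ((r.natAbs : ℤ) * a) := by
    refine E.mul hL r.natAbs (Int.natAbs_ne_zero.mpr hr0) ?_ a
    intro q hq hqr b
    have hqr' : (q : ℤ) ∣ r := Int.natCast_dvd.mpr hqr
    have hqp : Prime (q : ℤ) := Nat.prime_iff_prime_int.mp hq
    exact E.prime hm hy q hq (hqp.dvd_of_dvd_pow (hqr'.trans hr)) b
  rcases Int.natAbs_eq r with h | h
  · rw [h]
    exact h1
  · have h3 := h1.trans hL (E.neg hL _)
    have e : -((r.natAbs : ℤ) * a) = r * a := by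
      conv_rhs => rw [h]
      ring
    rwa [e] at h3

end Pool.Agent.H33SSE
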