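import Pool.Agent.H33SSE.Struct

/-!
# The explicit criterion for integer eigenvalues
-/

set_option autoImplicit false

namespace Pool.Agent.H33SSE

open Matrix Pool.Agent.TH441.SSE2 Pool.Agent.Y321.SE2

/-- Reduction of the class of a matrix. -/
lemma reduce_class {A : Matrix (Fin 2) (Fin 2) ℤ} (m y a : ℤ) (hL : 12 * |m| + 36 ≤ y - m)
    (p1 : 1 ≤ A 0 1) (p2 : 1 ≤ A 1 0) (hs : Sim !![m, 0; a, y] A) :
    ∃ k, 1 ≤ k ∧ 2 * k ≤ y - m ∧ Sim !![m, 0; k, y] A ∧ E m y a k := by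
  have hm := abs_nonneg m
  obtain ⟨k1, hdvd, h1, h2⟩ := exists_rep (y - m) a (by linarith)
  have hE : E m y a k1 := E.congr hL (by
    have e : a - k1 = -(k1 - a) := by ring
    rw [e]; exact (dvd_neg).mpr hdvd)
  obtain ⟨e, he⟩ := hdvd
  have hk1 : Sim !![m, 0; k1, y] A := by
    have h3 := sim_shift m y a e
    have e1 : a + e * (y - m) = k1 := by linarith
    rw [e1] at h3
    exact h3.trans hs
  rcases lt_trichotomy k1 0 with h | h | h
  · exact ⟨-k1, by linarith, by linarith, (sim_neg m y k1).trans hk1, hE.trans hL (E.neg hL k1)⟩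
  · exfalso
    rw [h, Matrix.eta_fin_two A] at hk1
    exact tri_ne_zero _ _ _ _ m y p1 p2 (by linarith) hk1
  · exact ⟨k1, by linarith, h1, hk1, hE⟩

/-- Linked classes give a chain. -/
theorem Q_of_E {A B : Matrix (Fin 2) (Fin 2) ℤ} (m y a b : ℤ) (hA : NN A) (hB : NN B)
    (p1 : 1 ≤ A 0 1) (p2 : 1 ≤ A 1 0) (p3 : 1 ≤ B 0 1) (p4 : 1 ≤ B 1 0)
    (hT : A.trace = y + m) (hD : A.det = y * m) (hT' : B.trace = y + m) (hD' : B.det = y * m)
    (hm : m ≠ 0) (hy : 497 * |m| ≤ y) (hTD : 500 * |y * m| ≤ (y + m) ^ 2)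
    (hsA : Sim !![m, 0; a, y] A) (hsB : Sim !![m, 0; b, y] B) (hE : E m y a b) : Q A B := by
  have hm1 : 1 ≤ |m| := Int.one_le_abs hm
  have hml := le_abs_self m
  have hL : 12 * |m| + 36 ≤ y - m := by linarith
  obtain ⟨a', a1, a2, hsA', hEa⟩ := reduce_class m y a hL p1 p2 hsA
  obtain ⟨b', b1, b2, hsB', hEb⟩ := reduce_class m y b hL p3 p4 hsB
  obtain ⟨sa, ta, hVa⟩ := nexists m y a' 1 1 (good_one m y a' a2 (by linarith) hL)
  obtain ⟨sb, tb, hVb⟩ := nexists m y b' 1 1 (good_one m y b' b2 (by linarith) hL)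
  have qa := mat_class m y a' hA p1 p2 hT hD hm hy hTD a1 a2 hsA' sa ta hVa
  have qb := mat_class m y b' hB p3 p4 hT' hD' hm hy hTD b1 b2 hsB' sb tb hVb
  have hE' : E m y a' b' := (hEa.symm.trans hL hE).trans hL hEb
  have hLk := hE' a' b' (by simp) (by simp) a2 (by linarith) b2 (by linarith)
  exact (qa.trans (hLk sa ta sb tb hVa hVb)).trans qb.symm

/-- Shift equivalence over `ℤ` gives the arithmetic criterion. -/
theorem crit_of_se {A B : Matrix (Fin 2) (Fin 2) ℤ} (m y a b : ℤ) (hL : y - m ≠ 0)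
    (hD : A.det = y * m) (hsA : Sim !![m, 0; a, y] A)
    (hsB : Sim !![m, 0; b, y] B) (R S : Matrix (Fin 2) (Fin 2) ℤ) (l : ℕ)
    (h1 : A * R = R * B) (h2 : A ^ l = R * S) :
    ∃ (N : ℕ) (r s : ℤ), r ∣ (m * y) ^ N ∧ s ∣ (m * y) ^ N ∧ (y - m) ∣ r * a - s * b := by
  obtain ⟨U, hU, hUA⟩ := hsA
  obtain ⟨V, hV, hVB⟩ := hsB
  have hUU := inv_mul_of_det_one hU
  have hVV := inv_mul_of_det_one hV
  have hRdet : R.det ∣ (y * m) ^ l := by
    have h3 := congrArg Matrix.det h2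
    rw [Matrix.det_pow, hD, Matrix.det_mul] at h3
    exact ⟨S.det, h3⟩
  obtain ⟨R', hR'⟩ : ∃ R', R' = U⁻¹ * R * V := ⟨_, rfl⟩
  have hint : !![m, 0; a, y] * R' = R' * !![m, 0; b, y] := by
    rw [hR']
    calc !![m, 0; a, y] * (U⁻¹ * R * V) = (U⁻¹ * U) * !![m, 0; a, y] * (U⁻¹ * R * V) := by
          rw [hUU.1, Matrix.one_mul]
      _ = U⁻¹ * (U * !![m, 0; a, y]) * U⁻¹ * R * V := by simp only [Matrix.mul_assoc]
      _ = U⁻¹ * A * (U * U⁻¹) * R * V := by rw [hUA]; simp only [Matrix.mul_assoc]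
      _ = U⁻¹ * (A * R) * V := by rw [hUU.2, Matrix.mul_one]; simp only [Matrix.mul_assoc]
      _ = U⁻¹ * R * (B * V) := by rw [h1]; simp only [Matrix.mul_assoc]
      _ = U⁻¹ * R * V * !![m, 0; b, y] := by rw [← hVB]; simp only [Matrix.mul_assoc]
  have hdet : R'.det ∣ (m * y) ^ l := by
    rw [hR', Matrix.det_mul, Matrix.det_mul]
    have e1 : (U⁻¹).det * R.det * V.det ∣ R.det := by
      have u1 : IsUnit ((U⁻¹).det * V.det) := (Matrix.isUnit_nonsing_inv_det U hU).mul hV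
      have e2 : (U⁻¹).det * R.det * V.det = (U⁻¹).det * V.det * R.det := by ring
      rw [e2]
      exact (u1.mul_left_dvd).mpr dvd_rfl
    have e3 : (m * y) ^ l = (y * m) ^ l := by rw [mul_comm]
    rw [e3]
    exact e1.trans hRdet
  have k01 := congrFun (congrFun hint 0) 1
  have k10 := congrFun (congrFun hint 1) 0
  simp [Matrix.mul_apply, Fin.sum_univ_succ] at k01 k10
  have hr01 : R' 0 1 = 0 := by
    have h2 : (y - m) * R' 0 1 = 0 := by linear_combination -k01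
    rcases mul_eq_zero.mp h2 with h | h
    · exact absurd h hL
    · exact h
  rw [Matrix.det_fin_two, hr01, zero_mul, sub_zero] at hdet
  exact ⟨l, R' 0 0, R' 1 1, (Dvd.intro _ rfl).trans hdet, (Dvd.intro_left _ rfl).trans hdet,
    ⟨-R' 1 0, by linear_combination k10⟩⟩

/-- The arithmetic criterion gives linked classes. -/
theorem E_of_crit {m y a b : ℤ} (hm : m ≠ 0) (hy : 497 * |m| ≤ y) (N : ℕ) (r s : ℤ)
    (hr : r ∣ (m * y) ^ N) (hs : s ∣ (m * y) ^ N) (h : (y - m) ∣ r * a - s * b) :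
    E m y a b := by
  have hm1 : 1 ≤ |m| := Int.one_le_abs hm
  have hml := le_abs_self m
  have hL : 12 * |m| + 36 ≤ y - m := by linarith
  have hy0 : m * y ≠ 0 := mul_ne_zero hm (by
    intro h
    rw [h] at hy
    linarith)
  have hne := pow_ne_zero N hy0
  have n1 : r ≠ 0 := by
    rintro rfl
    exact hne (zero_dvd_iff.mp hr)
  have n2 : s ≠ 0 := by
    rintro rfl
    exact hne (zero_dvd_iff.mp hs)
  exact ((E.dvd hm hy N r n1 hr a).trans hL (E.congr hL h)).trans hL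
    (E.dvd hm hy N s n2 hs b).symm

end Pool.Agent.H33SSE
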