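import Pool.Agent.H33SSE.Classes
import Pool.Agent.Y321.SEP.TransP

/-!
# From narrow presentations to nonnegative `2 × 2` matrices
-/

set_option autoImplicit false

namespace Pool.Agent.H33SSE

open Matrix Pool.Agent.TH441.SSE2 Pool.Agent.Y321.SE2

lemma dec_fun (α β : ℤ) (h1 : 0 ≤ β + α) (h2 : 0 ≤ β - α) :
    ∃ a b c : ℤ, 0 ≤ a ∧ 0 ≤ b ∧ 0 ≤ c ∧ c - a = α ∧ a + b + c = β := by
  rcases le_total 0 α with h | h
  · exact ⟨0, β - α, α, le_rfl, h2, h, by ring, by ring⟩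
  · exact ⟨-α, β + α, 0, by linarith, h1, le_rfl, by ring, by ring⟩

/-- A narrow presentation of level `(1, 1)` is linked to a wide one. -/
lemma to_wide (m y k s t : ℤ) (h : Val m y k 1 1 s t) :
    ∃ s' t' : ℤ, InH 1 s' t' ∧ InH 1 (s' - -m) (t' + k) ∧
      InH 1 (0 + 1 * (-m) - 2 * 1 * s') (y - 1 * k - 2 * 1 * t') ∧
      Q (Nn m y k 1 1 s t) (W (-m) 0 k y 1 s' t') := by
  obtain ⟨a1, a2, a3, a4, a5, a6⟩ := h
  obtain ⟨f11, f12, f13, p11, p12, p13, e11, e12⟩ := dec_fun s t (by linarith) (by linarith)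
  obtain ⟨f21, f22, f23, p21, p22, p23, e21, e22⟩ := dec_fun (k - m - 2 * s) (y - 2 * t)
    (by linarith) (by linarith)
  obtain ⟨f31, f32, f33, p31, p32, p33, e31, e32⟩ := dec_fun (s + m) t
    (by linarith) (by linarith)
  refine ⟨-f11 + f31, f11 + f21 + f31, ⟨by linarith, by linarith, by linarith⟩,
    ⟨by linarith, by linarith, by linarith⟩, ⟨by linarith, by linarith, by linarith⟩, ?_⟩
  refine Q.move (Fn m y k 1 1 s t) (Vn 1 1) (Ur 1)
    (Vc (-m) 0 k y 1 (-f11 + f31) (f11 + f21 + f31))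
    (!![f11, f12, f13; f21, f22, f23; f31, f32, f33]) ?_ ?_ ?_ ?_
  · intro i j; fin_cases i <;> fin_cases j <;> simp <;> assumption
  · intro i j
    fin_cases i <;> fin_cases j <;>
      simp [Ur, Vn, Matrix.mul_apply, Fin.sum_univ_succ]
  · ext i j; fin_cases i <;> fin_cases j <;>
      simp [Fn, Ur, Matrix.mul_apply, Fin.sum_univ_succ] <;> linarith
  · ext i j; fin_cases i <;> fin_cases j <;>
      simp [Vn, Vc, Matrix.mul_apply, Fin.sum_univ_succ] <;> linarith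

/-- Exit to a `2 × 2` matrix. -/
lemma to_two (m y k s t : ℤ) (hm : m ≠ 0) (hk : 1 ≤ k) (hy : 20 * |m| ≤ y - m)
    (h : Val m y k 1 1 s t) :
    ∃ j : ℤ, 1 ≤ j ∧ |m| ≤ j * k ∧ j * k < |m| + k ∧
      Q (Nn m y k 1 1 s t) (K1 (-m) 0 k y j) := by
  obtain ⟨s', t', h1, h2, h3, hQ⟩ := to_wide m y k s t h
  have hm1 : 1 ≤ |m| := Int.one_le_abs hm
  rcases le_or_gt |m| k with hmk | hmk
  · refine ⟨1, le_rfl, by linarith, by linarith, hQ.trans ?_⟩
    have hl := le_abs_self m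
    have hr := neg_abs_le m
    exact hl_a (-m) 0 k y 1 s' t' (by norm_num) (by linarith) (by linarith) (by linarith) h1 h3
  · obtain ⟨c1, c2⟩ := cd_spec |m| k hk
    have hj : 1 ≤ cd |m| k := by
      by_contra hneg
      push Not at hneg
      have : cd |m| k * k ≤ 0 := mul_nonpos_of_nonpos_of_nonneg (by linarith) (by linarith)
      linarith
    refine ⟨cd |m| k, hj, c1, c2, hQ.trans ?_⟩
    rcases le_total 0 m with h0 | h0
    · rw [abs_of_nonneg h0] at hm1 hmk hy ⊢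
      exact hl_b_neg m 0 k y 1 s' t' hm1 hk le_rfl (by linarith)
        (by rw [abs_zero]; linarith) h1 h2 h3
    · rw [abs_of_nonpos h0] at hm1 hmk hy ⊢
      exact hl_b (-m) 0 k y 1 s' t' hm1 hk le_rfl (by linarith)
        (by rw [abs_zero]; linarith) h1 h2 h3

/-- Similar nonnegative matrices with positive off-diagonal entries. -/
lemma sim_all {A A'' : Matrix (Fin 2) (Fin 2) ℤ} {T D : ℤ} (hA : NN A) (hA'' : NN A'')
    (p1 : 1 ≤ A 0 1) (p2 : 1 ≤ A 1 0) (p3 : 1 ≤ A'' 0 1) (p4 : 1 ≤ A'' 1 0)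
    (hs : Sim A'' A) (hT : A.trace = T) (hD : A.det = -D) (hT0 : 0 < T) (hD0 : D ≠ 0)
    (hTD : 500 * |D| ≤ T ^ 2) : Q A A'' := by
  rcases lt_or_gt_of_ne hD0 with h0 | h0
  · rw [abs_of_neg h0] at hTD
    obtain ⟨U, hU, hUA⟩ := hs
    obtain ⟨i1, i2⟩ := inv_entries hU hUA.symm hT hD
    rw [Matrix.trace_fin_two] at hT
    rw [Matrix.det_fin_two] at hD
    have hAeta := Matrix.eta_fin_two A
    have hA''eta := Matrix.eta_fin_two A''
    have hUeta := Matrix.eta_fin_two U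
    have hUdet : U 0 0 * U 1 1 - U 0 1 * U 1 0 = 1 ∨ U 0 0 * U 1 1 - U 0 1 * U 1 0 = -1 := by
      rw [← Matrix.det_fin_two]
      exact Int.isUnit_iff.mp hU
    rcases hUdet with h1 | h1
    · have h := river_one T (-D) hT0 (by linarith) (by linarith) (A 0 0) (A 0 1) (A 1 0) (A 1 1)
        (U 0 0) (U 0 1) (U 1 0) (U 1 1) (A'' 0 0) (A'' 0 1) (A'' 1 0) (A'' 1 1) p1 p2
        hT.symm (by linarith) i1 (by linarith) h1 p3 p4
        (by rw [← hAeta, ← hUeta, ← hA''eta]; exact hUA.symm)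
      rw [← hAeta, ← hA''eta] at h
      exact h
    · have h2 : !![A 0 0, A 0 1; A 1 0, A 1 1] * !![U 0 1, U 0 0; U 1 1, U 1 0] =
          !![U 0 1, U 0 0; U 1 1, U 1 0] * !![A'' 1 1, A'' 1 0; A'' 0 1, A'' 0 0] := by
        have k00 := congrFun (congrFun hUA 0) 0
        have k01 := congrFun (congrFun hUA 0) 1
        have k10 := congrFun (congrFun hUA 1) 0
        have k11 := congrFun (congrFun hUA 1) 1
        simp only [Matrix.mul_apply, Fin.sum_univ_two] at k00 k01 k10 k11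
        ext i j; fin_cases i <;> fin_cases j <;>
          simp [Matrix.mul_apply, Fin.sum_univ_two] <;> linarith
      have h := river_one T (-D) hT0 (by linarith) (by linarith) (A 0 0) (A 0 1) (A 1 0) (A 1 1)
        (U 0 1) (U 0 0) (U 1 1) (U 1 0) (A'' 1 1) (A'' 1 0) (A'' 0 1) (A'' 0 0) p1 p2
        hT.symm (by linarith) (by linarith) (by linarith) (by linarith) p4 p3 h2
      rw [← hAeta] at h
      have h3 := Q.swap (A'' 0 0) (A'' 0 1) (A'' 1 0) (A'' 1 1) (hA'' 0 0) (hA'' 0 1) (hA'' 1 0)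
        (hA'' 1 1)
      rw [← hA''eta] at h3
      exact h.trans h3.symm
  · rw [abs_of_pos h0] at hTD
    exact sim_Q hA hA'' hs hT hD hT0 h0 (by linarith)

/-- A matrix similar to the class `k` is linked to its presentations. -/
lemma mat_class {A : Matrix (Fin 2) (Fin 2) ℤ} (m y k : ℤ) (hA : NN A) (p1 : 1 ≤ A 0 1)
    (p2 : 1 ≤ A 1 0) (hT : A.trace = y + m) (hD : A.det = y * m) (hm : m ≠ 0)
    (hy : 497 * |m| ≤ y) (hTD : 500 * |y * m| ≤ (y + m) ^ 2) (hk : 1 ≤ k)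
    (hk2 : 2 * k ≤ y - m) (hs : Sim !![m, 0; k, y] A) (s t : ℤ) (h : Val m y k 1 1 s t) :
    Q A (Nn m y k 1 1 s t) := by
  have hm1 : 1 ≤ |m| := Int.one_le_abs hm
  have hl := le_abs_self m
  have hr := neg_abs_le m
  obtain ⟨j, j1, j2, j3, hQ⟩ := to_two m y k s t hm hk (by linarith) h
  have hsK : Sim (K1 (-m) 0 k y j) A := by
    have h1 := K1_sim (-m) 0 k y j
    rw [neg_neg] at h1
    exact h1.trans hs
  have hlt : j * k < y - m := by linarith
  have e01 : K1 (-m) 0 k y j 0 1 = j * (y - m - j * k) := by simp [K1]; ring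
  have q3 : 1 ≤ K1 (-m) 0 k y j 0 1 := by
    rw [e01]
    have : 1 * 1 ≤ j * (y - m - j * k) :=
      mul_le_mul j1 (by linarith) (by norm_num) (by linarith)
    linarith
  have q4 : 1 ≤ K1 (-m) 0 k y j 1 0 := by simp [K1]; exact hk
  have hNN : NN (K1 (-m) 0 k y j) := by
    intro i i'
    fin_cases i <;> fin_cases i'
    · simp [K1]; linarith
    · exact le_trans zero_le_one q3
    · exact le_trans zero_le_one q4
    · simp [K1]; linarith
  have h0 : y * m ≠ 0 := mul_ne_zero (by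
    intro h
    rw [h] at hy
    linarith) hm
  exact (sim_all hA hNN p1 p2 q3 q4 hsK hT (D := -(y * m)) (by rw [hD]; ring) (by linarith)
    (neg_ne_zero.mpr h0) (by rw [abs_neg]; exact hTD)).trans hQ.symm

end Pool.Agent.H33SSE
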