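import Pool.Agent.H33SSE.Criterion

/-!
# Shift equivalence and strong shift equivalence for `2 × 2` matrices of small determinant
-/

set_option autoImplicit false

namespace Pool.Agent.H33SSE

open Matrix Pool.Agent.TH441.SSE2 Pool.Agent.Y321.SE2

/-- Equal traces and determinants. -/
lemma tr_det_of_int {A B R : Matrix (Fin 2) (Fin 2) ℤ} (hR : R.det ≠ 0) (h : A * R = R * B) :
    A.trace = B.trace ∧ A.det = B.det := by
  constructor
  · have h1 : (A * R * R.adjugate).trace = (R * B * R.adjugate).trace := by rw [h]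
    rw [Matrix.mul_assoc, Matrix.mul_adjugate, Matrix.trace_mul_cycle, Matrix.adjugate_mul] at h1
    simp only [Matrix.mul_smul, Matrix.mul_one, Matrix.smul_mul, Matrix.one_mul,
      Matrix.trace_smul, smul_eq_mul] at h1
    exact mul_left_cancel₀ hR h1
  · have h1 := congrArg Matrix.det h
    rw [Matrix.det_mul, Matrix.det_mul, mul_comm] at h1
    exact mul_left_cancel₀ hR h1

/-- The eigenvalue ratio. -/
lemma ratio_bound {m y : ℤ} (hm0 : m ≠ 0) (habs : |m| ≤ y)
    (hTD : 500 * |y * m| ≤ (y + m) ^ 2) : 497 * |m| ≤ y := by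
  have hm1 : 1 ≤ |m| := Int.one_le_abs hm0
  have hyp : 0 < y := by linarith
  rw [abs_mul, abs_of_pos hyp] at hTD
  by_contra hneg
  push Not at hneg
  have h1 : (y + m) ^ 2 ≤ (y + |m|) ^ 2 := by
    have := le_abs_self m
    have := neg_abs_le m
    exact pow_le_pow_left₀ (by linarith) (by linarith) 2
  have h2 : |m| * |m| ≤ y * |m| := mul_le_mul_of_nonneg_right habs (by linarith)
  have h3 : y * y < y * (497 * |m|) := mul_lt_mul_of_pos_left hneg hyp
  nlinarith

/-- Integer eigenvalues from a square discriminant. -/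
lemma eigen_of_square {T D : ℤ} (hT : 0 < T) (hD : D ≠ 0) (hTD : 500 * |D| ≤ T ^ 2)
    (hs : IsSquare (T ^ 2 - 4 * D)) :
    ∃ m y : ℤ, T = y + m ∧ D = y * m ∧ m ≠ 0 ∧ 497 * |m| ≤ y := by
  obtain ⟨w0, hw0⟩ := hs
  obtain ⟨w, hw, hwpos⟩ : ∃ w : ℤ, T ^ 2 - 4 * D = w * w ∧ 0 ≤ w :=
    ⟨|w0|, by rw [abs_mul_abs_self]; exact hw0, abs_nonneg _⟩
  have hpar : (T - w) % 2 = 0 := by
    rcases Int.emod_two_eq_zero_or_one (T - w) with h | h
    · exact h
    · exfalso
      have h2 : (T + w) % 2 = 1 := by omega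
      have h3 : (T - w) * (T + w) = 4 * D := by linear_combination hw
      have h4 : ((T - w) * (T + w)) % 2 = 1 := by
        rw [Int.mul_emod, h, h2]; norm_num
      rw [h3] at h4
      omega
  obtain ⟨m, hm⟩ : ∃ m, T - w = 2 * m := ⟨(T - w) / 2, by omega⟩
  obtain ⟨y, hy⟩ : ∃ y, y = m + w := ⟨_, rfl⟩
  have hTy : T = y + m := by rw [hy]; linarith
  have hDy : D = y * m := by
    have h1 : w = T - 2 * m := by linarith
    have h2 : 4 * D = 4 * (y * m) := by
      rw [hy, h1]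
      rw [h1] at hw
      linear_combination -hw
    linarith
  have hm0 : m ≠ 0 := by
    rintro rfl
    rw [mul_zero] at hDy
    exact hD hDy
  refine ⟨m, y, hTy, hDy, hm0, ?_⟩
  have hmy : m ≤ y := by rw [hy]; linarith
  have hmy' : -m < y := by linarith
  have habs : |m| ≤ y := abs_le.mpr ⟨by linarith, hmy⟩
  exact ratio_bound hm0 habs (by rw [← hDy, ← hTy]; exact hTD)

/-- The matrix over `ℤ`. -/
abbrev toZ {n : ℕ} (A : Matrix (Fin n) (Fin n) ℕ) : Matrix (Fin n) (Fin n) ℤ :=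
  A.map (Nat.cast : ℕ → ℤ)

lemma NN_toZ {n : ℕ} (A : Matrix (Fin n) (Fin n) ℕ) : NN (toZ A) := fun i j => by simp

/-- Shift equivalence over `ℤ` implies a chain for irreducible matrices, nonzero determinant. -/
theorem Q_of_seZ_irr (A B : Matrix (Fin 2) (Fin 2) ℕ)
    (p1 : 0 < A 0 1) (p2 : 0 < A 1 0) (p3 : 0 < B 0 1) (p4 : 0 < B 1 0)
    (hquad : 500 * |(toZ A).det| ≤ (toZ A).trace ^ 2) (h0 : (toZ A).det ≠ 0)
    (h : ∃ l, 1 ≤ l ∧ ∃ (R : Matrix (Fin 2) (Fin 2) ℤ) (S : Matrix (Fin 2) (Fin 2) ℤ),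
      (toZ A) ^ l = R * S ∧ (toZ B) ^ l = S * R ∧ toZ A * R = R * toZ B ∧
      S * toZ A = toZ B * S) :
    Q (toZ A) (toZ B) := by
  by_cases hs : IsSquare ((toZ A).trace ^ 2 - 4 * (toZ A).det)
  · obtain ⟨l, hl, R, S, e1, e2, e3, e4⟩ := h
    have hR0 : R.det ≠ 0 := by
      intro h1
      have h2 := congrArg Matrix.det e1
      rw [Matrix.det_mul, h1, zero_mul, Matrix.det_pow] at h2
      exact pow_ne_zero _ h0 h2
    obtain ⟨t1, t2⟩ := tr_det_of_int hR0 e3
    have hT0 : 0 < (toZ A).trace := by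
      have h1 : 0 ≤ (toZ A).trace := by
        rw [Matrix.trace_fin_two]; exact add_nonneg (NN_toZ A 0 0) (NN_toZ A 1 1)
      rcases h1.lt_or_eq with h2 | h2
      · exact h2
      · rw [← h2] at hquad
        have := abs_pos.mpr h0
        linarith
    obtain ⟨m, y, f1, f2, f3, f4⟩ := eigen_of_square hT0 h0 hquad hs
    have g : ∀ (C : Matrix (Fin 2) (Fin 2) ℕ) (i j : Fin 2), 0 < C i j → 1 ≤ (toZ C) i j := by
      intro C i j h
      simp only [Matrix.map_apply]
      exact_mod_cast h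
    exact main_rat m y (NN_toZ A) (NN_toZ B) (g A 0 1 p1) (g A 1 0 p2) (g B 0 1 p3) (g B 1 0 p4)
      f1 f2 (t1 ▸ f1) (t2 ▸ f2) f3 f4 (by rw [← f1, ← f2]; exact hquad) R S l e3 e1
  · exact Q_of_seZ_all A B hquad hs h

/-- The `1 × 1` matrix. -/
def one1 (t : ℤ) : Matrix (Fin 1) (Fin 1) ℤ := fun _ _ => t

lemma Q_rank_one (a b c d : ℕ) (h : a * d = b * c) :
    Q !![(a : ℤ), b; c, d] (one1 (a + d)) := by
  obtain ⟨u0, u1, v0, v1, h1, h2, h3, h4⟩ : ∃ u0 u1 v0 v1 : ℕ, a = u0 * v0 ∧ b = u0 * v1 ∧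
      c = u1 * v0 ∧ d = u1 * v1 := by
    rcases Nat.eq_zero_or_pos (Nat.gcd a b) with hg | hg
    · rw [Nat.gcd_eq_zero_iff] at hg
      exact ⟨0, 1, c, d, by simp [hg.1], by simp [hg.2], by simp, by simp⟩
    · obtain ⟨g, v0, v1, hg0, hcop, ha, hb⟩ := Nat.exists_coprime' hg
      have hv : v0 * d = v1 * c := by
        have : g * (v0 * d) = g * (v1 * c) := by
          rw [ha, hb] at h
          linarith
        exact Nat.eq_of_mul_eq_mul_left hg0 this
      have hdvd : v0 ∣ c := by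
        have : v0 ∣ v1 * c := ⟨d, hv.symm⟩
        exact hcop.dvd_of_dvd_mul_left this
      obtain ⟨t, ht⟩ := hdvd
      rcases Nat.eq_zero_or_pos v0 with h0 | h0
      · -- `v0 = 0`, `v1 = 1`
        rw [h0] at hcop ht
        have hv1 : v1 = 1 := by simpa using hcop
        refine ⟨g, d, 0, 1, ?_, ?_, ?_, ?_⟩
        · rw [ha, h0]; ring
        · rw [hb, hv1]; ring
        · rw [ht]; ring
        · ring
      · refine ⟨g, t, v0, v1, by rw [ha]; ring, by rw [hb]; ring, by rw [ht]; ring, ?_⟩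
        rw [ht] at hv
        have : v0 * d = v0 * (t * v1) := by rw [hv]; ring
        exact Nat.eq_of_mul_eq_mul_left h0 this
  refine Q.of_elem (!![(u0 : ℤ); u1]) (!![(v0 : ℤ), v1]) ?_ ?_ ?_ ?_
  · intro i j; fin_cases i <;> fin_cases j <;> simp
  · intro i j; fin_cases i <;> fin_cases j <;> simp
  · ext i j; fin_cases i <;> fin_cases j <;>
      simp [Matrix.mul_apply, h1, h2, h3, h4]
  · ext i j; fin_cases i; fin_cases j
    simp [Matrix.mul_apply, Fin.sum_univ_two, one1, h1, h4]; ring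

lemma Q_det_zero (A : Matrix (Fin 2) (Fin 2) ℕ) (h : (toZ A).det = 0) :
    Q (toZ A) (one1 (toZ A).trace) := by
  rw [Matrix.det_fin_two] at h
  have h1 : A 0 0 * A 1 1 = A 0 1 * A 1 0 := by
    have : (A 0 0 : ℤ) * A 1 1 = A 0 1 * A 1 0 := by
      simp only [Matrix.map_apply] at h
      linarith
    exact_mod_cast this
  have h2 := Q_rank_one _ _ _ _ h1
  have e1 : toZ A = !![(A 0 0 : ℤ), A 0 1; A 1 0, A 1 1] := by
    ext i j; fin_cases i <;> fin_cases j <;> simp
  have e2 : (toZ A).trace = (A 0 0 : ℤ) + A 1 1 := by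
    rw [Matrix.trace_fin_two]; simp
  rw [e2]
  rw [e1]
  exact h2

/-- Powers of a singular matrix. -/
lemma pow_det_zero {A : Matrix (Fin 2) (Fin 2) ℤ} (h : A.det = 0) (l : ℕ) :
    (A ^ (l + 1)).trace = A.trace ^ (l + 1) := by
  have h2 : A * A = A.trace • A := by
    have hd : A 0 0 * A 1 1 = A 0 1 * A 1 0 := by
      rw [Matrix.det_fin_two] at h; linarith
    ext i j
    fin_cases i <;> fin_cases j <;>
      simp [Matrix.mul_apply, Fin.sum_univ_two, Matrix.trace_fin_two] <;>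
      first | ring1 | linear_combination hd | linear_combination -hd
  have h3 : A ^ (l + 1) = A.trace ^ l • A := by
    induction l with
    | zero => simp
    | succ l ih =>
      rw [pow_succ, ih, Matrix.smul_mul, h2, smul_smul, pow_succ]
  rw [h3, Matrix.trace_smul, smul_eq_mul, pow_succ]

/-- Singular matrices which are shift equivalent over `ℤ` are linked. -/
theorem Q_of_seZ_zero (A B : Matrix (Fin 2) (Fin 2) ℕ) (h0 : (toZ A).det = 0)
    (h : ∃ l, 1 ≤ l ∧ ∃ (R : Matrix (Fin 2) (Fin 2) ℤ) (S : Matrix (Fin 2) (Fin 2) ℤ),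
      (toZ A) ^ l = R * S ∧ (toZ B) ^ l = S * R ∧ toZ A * R = R * toZ B ∧
      S * toZ A = toZ B * S) :
    Q (toZ A) (toZ B) := by
  obtain ⟨l, hl, R, S, e1, e2, e3, e4⟩ := h
  obtain ⟨l, rfl⟩ : ∃ l', l = l' + 1 := ⟨l - 1, by omega⟩
  have hB0 : (toZ B).det = 0 := by
    have h1 := congrArg Matrix.det e1
    have h2 := congrArg Matrix.det e2
    rw [Matrix.det_pow, h0, Matrix.det_mul, zero_pow (by omega)] at h1
    rw [Matrix.det_pow, Matrix.det_mul, mul_comm, ← h1] at h2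
    exact pow_eq_zero_iff (by omega) |>.mp h2
  have ht : (toZ A).trace = (toZ B).trace := by
    have h1 := pow_det_zero h0 l
    have h2 := pow_det_zero hB0 l
    rw [e1, Matrix.trace_mul_comm, ← e2, h2] at h1
    have n1 : 0 ≤ (toZ A).trace := by
      rw [Matrix.trace_fin_two]; exact add_nonneg (NN_toZ A 0 0) (NN_toZ A 1 1)
    have n2 : 0 ≤ (toZ B).trace := by
      rw [Matrix.trace_fin_two]; exact add_nonneg (NN_toZ B 0 0) (NN_toZ B 1 1)
    exact (pow_left_inj₀ n1 n2 (by omega)).mp h1.symm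
  have q1 := Q_det_zero A h0
  have q2 := Q_det_zero B hB0
  rw [ht] at q1
  exact q1.trans q2.symm

/-- A matrix with positive off-diagonal entries and nonzero determinant is not shift equivalent
over `ℕ` to a triangular matrix. -/
lemma mixed_core (a b c d x z e p q : ℕ) (hb : 0 < b) (hc : 0 < c)
    (e1 : a * x + b * z = x * e) (e2 : c * x + d * z = z * e) (e5 : p * x + q * z = 0) :
    (x = 0 ∧ z = 0) ∨ (p = 0 ∧ q = 0) := by
  rcases Nat.eq_zero_or_pos x with hx | hx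
  · left
    rw [hx, mul_zero, zero_add, zero_mul] at e1
    exact ⟨hx, (Nat.mul_eq_zero.mp e1).resolve_left hb.ne'⟩
  · rcases Nat.eq_zero_or_pos z with hz | hz
    · exfalso
      rw [hz, mul_zero, add_zero, zero_mul] at e2
      rcases Nat.mul_eq_zero.mp e2 with h | h <;> omega
    · right
      obtain ⟨h1, h2⟩ := Nat.add_eq_zero_iff.mp e5
      exact ⟨(Nat.mul_eq_zero.mp h1).resolve_right hx.ne',
        (Nat.mul_eq_zero.mp h2).resolve_right hz.ne'⟩

lemma pow_tri_10 (B : Matrix (Fin 2) (Fin 2) ℕ) (h : B 1 0 = 0) (l : ℕ) : (B ^ l) 1 0 = 0 := by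
  induction l with
  | zero => simp
  | succ l ih => rw [pow_succ, Matrix.mul_apply, Fin.sum_univ_two, ih, h]; simp

lemma pow_tri_01 (B : Matrix (Fin 2) (Fin 2) ℕ) (h : B 0 1 = 0) (l : ℕ) : (B ^ l) 0 1 = 0 := by
  induction l with
  | zero => simp
  | succ l ih => rw [pow_succ, Matrix.mul_apply, Fin.sum_univ_two, ih, h]; simp

theorem mixed (A B : Matrix (Fin 2) (Fin 2) ℕ) (p1 : 0 < A 0 1) (p2 : 0 < A 1 0)
    (hB : B 0 1 = 0 ∨ B 1 0 = 0) (h0 : (toZ A).det ≠ 0) (l : ℕ)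
    (R S : Matrix (Fin 2) (Fin 2) ℕ) (e1 : A ^ l = R * S) (e2 : B ^ l = S * R)
    (e3 : A * R = R * B) : False := by
  have hdet : (toZ R).det ≠ 0 ∧ (toZ S).det ≠ 0 := by
    have hm : ∀ (X Y : Matrix (Fin 2) (Fin 2) ℕ), toZ (X * Y) = toZ X * toZ Y :=
      fun X Y => Matrix.map_mul (f := Nat.castRingHom ℤ)
    have hp : ∀ (X : Matrix (Fin 2) (Fin 2) ℕ) (j : ℕ), toZ (X ^ j) = (toZ X) ^ j :=
      fun X j => Matrix.map_pow (f := Nat.castRingHom ℤ) X j
    have h1 := congrArg (fun X => (toZ X).det) e1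
    simp only [hm, hp, Matrix.det_mul, Matrix.det_pow] at h1
    have h2 := pow_ne_zero l h0
    rw [h1] at h2
    exact ⟨left_ne_zero_of_mul h2, right_ne_zero_of_mul h2⟩
  rw [Matrix.det_fin_two, Matrix.det_fin_two] at hdet
  simp only [Matrix.map_apply] at hdet
  obtain ⟨hR, hS⟩ := hdet
  have k00 := congrFun (congrFun e3 0) 0
  have k01 := congrFun (congrFun e3 0) 1
  have k10 := congrFun (congrFun e3 1) 0
  have k11 := congrFun (congrFun e3 1) 1
  simp only [Matrix.mul_apply, Fin.sum_univ_two] at k00 k01 k10 k11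
  rcases hB with hB | hB
  · have h5 := pow_tri_01 B hB l
    rw [e2, Matrix.mul_apply, Fin.sum_univ_two] at h5
    rw [hB] at k01 k11
    rcases mixed_core _ _ _ _ _ _ (B 1 1) _ _ p1 p2 (by rw [k01]; ring) (by rw [k11]; ring) h5
      with ⟨h6, h7⟩ | ⟨h6, h7⟩
    · apply hR; rw [h6, h7]; simp
    · apply hS; rw [h6, h7]; simp
  · have h5 := pow_tri_10 B hB l
    rw [e2, Matrix.mul_apply, Fin.sum_univ_two] at h5
    rw [hB] at k00 k10
    rcases mixed_core _ _ _ _ _ _ (B 0 0) _ _ p1 p2 (by rw [k00]; ring) (by rw [k10]; ring) h5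
      with ⟨h6, h7⟩ | ⟨h6, h7⟩
    · apply hR; rw [h6, h7]; simp
    · apply hS; rw [h6, h7]; simp

end Pool.Agent.H33SSE
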