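import Pool.Agent.H33SSE.Narrow

/-!
# Connectivity of the narrow presentations of a class
-/

set_option autoImplicit false

namespace Pool.Agent.H33SSE

open Matrix Pool.Agent.TH441.SSE2

/-- Enough room at level `(l1, l2)`. -/
def Good (m y k l1 l2 : ℤ) : Prop :=
  1 ≤ l1 ∧ 1 ≤ l2 ∧ 2 * (l1 + l2) * (|m| + (l1 + l2)) ≤ k + l1 * (y - m) ∧
    2 * (l1 + l2) * (|m| + (l1 + l2)) ≤ l2 * (y - m) - k

lemma Good.mirror {m y k l1 l2 : ℤ} (h : Good m y k l1 l2) : Good m y (-k) l2 l1 := by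
  obtain ⟨h1, h2, h3, h4⟩ := h
  refine ⟨h2, h1, ?_, ?_⟩
  · rw [add_comm l2 l1]; linarith
  · rw [add_comm l2 l1]; linarith

/-- The canonical presentation at a level, with its position. -/
lemma canon_spec (m y k l1 l2 : ℤ) (hG : Good m y k l1 l2) :
    ∃ sc tc mp mm : ℤ, 0 ≤ mp ∧ 0 ≤ mm ∧ mp - mm = m ∧ mp + mm = |m| ∧
      l2 * tc - sc = mp ∧ mm ≤ sc + l1 * tc ∧ sc + l1 * tc ≤ mm + (l1 + l2) - 1 := by
  obtain ⟨h1, h2, h3, h4⟩ := hG
  have hM : 0 < l1 + l2 := by linarith
  obtain ⟨mp, mm, e1, e2, e3, e4⟩ : ∃ mp mm : ℤ, 0 ≤ mp ∧ 0 ≤ mm ∧ mp - mm = m ∧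
      mp + mm = |m| := by
    rcases le_total 0 m with h | h
    · exact ⟨m, 0, h, le_rfl, by ring, by rw [abs_of_nonneg h]; ring⟩
    · exact ⟨0, -m, le_rfl, by linarith, by ring, by rw [abs_of_nonpos h]; ring⟩
  obtain ⟨tc, htc⟩ : ∃ tc, tc = (mm + mp + (l1 + l2) - 1) / (l1 + l2) := ⟨_, rfl⟩
  have f1 := Int.emod_add_mul_ediv (mm + mp + (l1 + l2) - 1) (l1 + l2)
  have f2 := Int.emod_nonneg (mm + mp + (l1 + l2) - 1) (ne_of_gt hM)
  have f3 := Int.emod_lt_of_pos (mm + mp + (l1 + l2) - 1) hM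
  rw [← htc] at f1
  exact ⟨l2 * tc - mp, tc, mp, mm, e1, e2, e3, e4, by ring, by linarith, by linarith⟩

/-- All valid presentations at a good level are linked. -/
lemma nconn (m y k l1 l2 : ℤ) (hG : Good m y k l1 l2) (s t s' t' : ℤ)
    (h : Val m y k l1 l2 s t) (h' : Val m y k l1 l2 s' t') :
    Q (Nn m y k l1 l2 s t) (Nn m y k l1 l2 s' t') := by
  obtain ⟨sc, tc, mp, mm, e1, e2, e3, e4, c1, c2, c3⟩ := canon_spec m y k l1 l2 hG
  obtain ⟨g1, g2, g3, g4⟩ := hG
  have hM : 0 < l1 + l2 := by linarith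
  rw [← e4] at g3 g4
  have p1 : 0 ≤ (l1 + l2) * mp := mul_nonneg hM.le e1
  have p2 : 0 ≤ (l1 + l2) * mm := mul_nonneg hM.le e2
  have p3 : 0 ≤ (l1 + l2) * (l1 + l2) := mul_nonneg hM.le hM.le
  have hcan : Val m y k l1 l2 sc tc := by
    refine ⟨by linarith, by linarith, by linarith, by linarith, ?_, ?_⟩
    · have : (l1 + l2) * (sc + l1 * tc) ≤ (l1 + l2) * (mm + (l1 + l2) - 1) :=
        mul_le_mul_of_nonneg_left c3 hM.le
      nlinarith
    · rw [c1]
      have : l1 * m + l2 * y - k = (l1 + l2) * m + (l2 * (y - m) - k) := by ring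
      rw [this, ← e3]
      nlinarith
  have key : ∀ s t : ℤ, Val m y k l1 l2 s t → Q (Nn m y k l1 l2 s t) (Nn m y k l1 l2 sc tc) := by
    intro s t h
    have step2 : ∀ s t : ℤ, Val m y k l1 l2 s t → mm + (l1 + l2) - 1 ≤ s + l1 * t →
        Q (Nn m y k l1 l2 s t) (Nn m y k l1 l2 sc tc) := by
      intro s t h hX
      have hh := nmove_add m y k l1 l2 sc tc (s - sc) (t - tc) g1 g2 hcan
        (by rw [add_sub_cancel, add_sub_cancel]; exact h) (by linarith)
        (by
          obtain ⟨_, _, h3, h4, _, _⟩ := h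
          have : mp ≤ l2 * t - s := by
            rcases le_total 0 m with h0 | h0
            · have : mp = m := by
                rw [abs_of_nonneg h0] at e4; linarith
              linarith
            · have : mp = 0 := by
                rw [abs_of_nonpos h0] at e4; linarith
              linarith
          linarith)
      rw [add_sub_cancel, add_sub_cancel] at hh
      exact hh
    rcases le_or_gt (mm + (l1 + l2) - 1) (s + l1 * t) with hX | hX
    · exact step2 s t h hX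
    · have h2 := h
      obtain ⟨a1, a2, a3, a4, a5, a6⟩ := h
      have hmm : mm ≤ s + l1 * t := by
        rcases le_total 0 m with h0 | h0
        · have : mm = 0 := by rw [abs_of_nonneg h0] at e4; linarith
          linarith
        · have : mm = -m := by rw [abs_of_nonpos h0] at e4; linarith
          linarith
      have hV : Val m y k l1 l2 (s + l2) (t + 1) := by
        refine ⟨by linarith, by linarith, by linarith, by linarith, ?_, ?_⟩
        · have : (l1 + l2) * (s + l2 + l1 * (t + 1)) ≤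
            (l1 + l2) * (mm + 2 * (l1 + l2)) :=
            mul_le_mul_of_nonneg_left (by linarith) hM.le
          nlinarith
        · have : l2 * (t + 1) - (s + l2) = l2 * t - s := by ring
          rw [this]; exact a6
      have q1 := nmove_add m y k l1 l2 s t l2 1 g1 g2 h2 hV (by linarith) (by linarith)
      have q2 := step2 (s + l2) (t + 1) hV (by linarith)
      exact q1.symm.trans q2
  exact (key s t h).trans (key s' t' h').symm

/-- A good level has a presentation which also serves at the next level. -/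
lemma nnext (m y k l1 l2 : ℤ) (hG : Good m y k l1 l2) :
    ∃ s t, Val m y k l1 l2 s t ∧ Val m y k (l1 + 1) l2 s t ∧
      Q (Nn m y k l1 l2 s t) (Nn m y k (l1 + 1) l2 s t) := by
  obtain ⟨sc, tc, mp, mm, e1, e2, e3, e4, c1, c2, c3⟩ := canon_spec m y k l1 l2 hG
  obtain ⟨g1, g2, g3, g4⟩ := hG
  have hM : 0 < l1 + l2 := by linarith
  rw [← e4] at g3 g4
  have hM2 : 2 ≤ l1 + l2 := by linarith
  have p1 : 0 ≤ (l1 + l2 - 1) * mp := mul_nonneg (by linarith) e1
  have p2 : 0 ≤ (l1 + l2 - 1) * mm := mul_nonneg (by linarith) e2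
  have p3 : 0 ≤ (l1 + l2) * (l1 + l2) := mul_nonneg hM.le hM.le
  refine ⟨sc, tc, nlevel m y k l1 l2 sc tc g1 g2 (by linarith) (by linarith) (by linarith)
    (by linarith) ?_ ?_⟩
  · have : (l1 + l2 + 1) * (sc + l1 * tc) ≤ (l1 + l2 + 1) * (mm + (l1 + l2) - 1) :=
        mul_le_mul_of_nonneg_left c3 (by linarith)
    have e5 : (l1 + l2 + 1) * (mm + (l1 + l2) - 1) + m =
        (l1 + l2) * mm + mp + (l1 + l2) * (l1 + l2) - 1 := by rw [← e3]; ring
    nlinarith
  · rw [c1]
    have e5 : l2 * y - k + (l1 + 1) * m = (l1 + l2 + 1) * m + (l2 * (y - m) - k) := by ring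
    rw [e5, ← e3]
    nlinarith

lemma nexists (m y k l1 l2 : ℤ) (hG : Good m y k l1 l2) : ∃ s t, Val m y k l1 l2 s t := by
  obtain ⟨s, t, h, _, _⟩ := nnext m y k l1 l2 hG
  exact ⟨s, t, h⟩

/-- Presentations at two levels are linked. -/
def Lev (m y k l1 l2 l1' l2' : ℤ) : Prop :=
  ∀ s t s' t', Val m y k l1 l2 s t → Val m y k l1' l2' s' t' →
    Q (Nn m y k l1 l2 s t) (Nn m y k l1' l2' s' t')

lemma lev_right (m y k l1 l2 : ℤ) (hG : Good m y k l1 l2) (hG' : Good m y k (l1 + 1) l2) :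
    Lev m y k (l1 + 1) l2 l1 l2 := by
  intro s t s' t' h h'
  obtain ⟨u, v, a1, a2, a3⟩ := nnext m y k l1 l2 hG
  exact ((nconn m y k (l1 + 1) l2 hG' s t u v h a2).trans a3.symm).trans
    (nconn m y k l1 l2 hG u v s' t' a1 h')

lemma lev_left (m y k l1 l2 : ℤ) (hG : Good m y k l1 l2) (hG' : Good m y k l1 (l2 + 1)) :
    Lev m y k l1 (l2 + 1) l1 l2 := by
  intro s t s' t' h h'
  have h1 := lev_right m y (-k) l2 l1 hG.mirror hG'.mirror _ _ _ _ h.mirror h'.mirror
  exact ((nmirror m y k l1 (l2 + 1) s t hG'.1 hG'.2.1 h).trans h1).trans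
    (nmirror m y k l1 l2 s' t' hG.1 hG.2.1 h').symm

lemma Lev.trans {m y k l1 l2 l1' l2' l1'' l2'' : ℤ} (h1 : Lev m y k l1 l2 l1' l2')
    (h2 : Lev m y k l1' l2' l1'' l2'') (hG : Good m y k l1' l2') :
    Lev m y k l1 l2 l1'' l2'' := by
  intro s t s' t' h h'
  obtain ⟨u, v, a1⟩ := nexists m y k l1' l2' hG
  exact (h1 s t u v h a1).trans (h2 u v s' t' a1 h')

/-- The larger coordinate can be decreased. -/
lemma good_dec (m y k l1 l2 : ℤ) (hk1 : 2 * k ≤ y - m) (hk2 : -(y - m) ≤ 2 * k)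
    (hL : 12 * |m| + 36 ≤ y - m) (hM : 8 * (|m| + (l1 + l2 + 1)) ≤ y - m)
    (hG : Good m y k (l1 + 1) l2) (hl1 : 1 ≤ l1) (hll : l2 ≤ l1 + 1) :
    Good m y k l1 l2 := by
  obtain ⟨g1, g2, g3, g4⟩ := hG
  have hm := abs_nonneg m
  have p1 : 0 ≤ (l1 + l2) * |m| := mul_nonneg (by linarith) hm
  refine ⟨hl1, g2, ?_, ?_⟩
  · rcases eq_or_lt_of_le hl1 with h | h
    · -- `l1 = 1`
      rw [← h] at hll hM ⊢
      have hl2 : l2 = 1 ∨ l2 = 2 := by omega
      rcases hl2 with h2 | h2 <;> rw [h2] <;> linarith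
    · -- `l1 ≥ 2`
      have e1 : (l1 + l2) * (y - m) ≤ 4 * (k + l1 * (y - m)) := by
        have : (l1 + l2) * (y - m) ≤ (4 * l1 - 2) * (y - m) :=
          mul_le_mul_of_nonneg_right (by linarith) (by linarith)
        nlinarith
      have e2 : (l1 + l2) * (8 * (|m| + (l1 + l2))) ≤ (l1 + l2) * (y - m) :=
        mul_le_mul_of_nonneg_left (by linarith) (by linarith)
      linarith
  · nlinarith

/-- Good levels of a class are linked to the level `(1, 1)`. -/
lemma ldown (m y : ℤ) (hL : 12 * |m| + 36 ≤ y - m) (n : ℕ) : ∀ (k l1 l2 : ℤ),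
    2 * k ≤ y - m → -(y - m) ≤ 2 * k → 8 * (|m| + (l1 + l2)) ≤ y - m → l1 + l2 ≤ n →
    Good m y k l1 l2 → Lev m y k l1 l2 1 1 := by
  induction n with
  | zero =>
    intro k l1 l2 _ _ _ h hG
    obtain ⟨g1, g2, _⟩ := hG
    push_cast at h
    linarith
  | succ n ih =>
    intro k l1 l2 hk1 hk2 hM hn hG
    push_cast at hn
    obtain ⟨g1, g2, _⟩ := id hG
    rcases le_total l2 l1 with hll | hll
    · rcases eq_or_lt_of_le g1 with h1 | h1
      · have h2 : l2 = 1 := by omega
        subst h2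
        rw [← h1] at hG ⊢
        intro s t s' t' h h'
        exact nconn m y k 1 1 hG s t s' t' h h'
      · obtain ⟨l, rfl⟩ : ∃ l, l1 = l + 1 := ⟨l1 - 1, by ring⟩
        have hG' := good_dec m y k l l2 hk1 hk2 hL (by linarith) hG (by linarith) hll
        exact (lev_right m y k l l2 hG' hG).trans
          (ih k l l2 hk1 hk2 (by linarith) (by linarith) hG') hG'
    · rcases eq_or_lt_of_le g2 with h1 | h1
      · have h2 : l1 = 1 := by omega
        subst h2
        rw [← h1] at hG ⊢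
        intro s t s' t' h h'
        exact nconn m y k 1 1 hG s t s' t' h h'
      · obtain ⟨l, rfl⟩ : ∃ l, l2 = l + 1 := ⟨l2 - 1, by ring⟩
        have hG' : Good m y k l1 l := by
          have := (good_dec m y (-k) l l1 (by linarith) (by linarith) hL (by linarith)
            hG.mirror (by linarith) hll).mirror
          rw [neg_neg] at this
          exact this
        exact (lev_left m y k l1 l hG' hG).trans
          (ih k l1 l hk1 hk2 (by linarith) (by linarith) hG') hG'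

end Pool.Agent.H33SSE
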