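import Pool.Agent.TH441.SSE2.Transfer

/-!
# Narrow presentations of a lower triangular `2 × 2` integer endomorphism

`P = [[m, 0], [k, y]]` (columns are the images of the basis vectors).  For `l1, l2 ≥ 1` the
presentation with vectors `(-1, l2), (0, 1), (1, l1)` and functionals
`(s, t), (k - l1 m - (l1+l2) s, y - (l1+l2) t), (s + m, t)`.
-/

set_option autoImplicit false

namespace Pool.Agent.H33SSE

open Matrix Pool.Agent.TH441.SSE2

/-- The three functionals, as rows. -/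
def Fn (m y k l1 l2 s t : ℤ) : Matrix (Fin 3) (Fin 2) ℤ :=
  !![s, t; k - l1 * m - (l1 + l2) * s, y - (l1 + l2) * t; s + m, t]

/-- The three vectors, as columns. -/
def Vn (l1 l2 : ℤ) : Matrix (Fin 2) (Fin 3) ℤ := !![-1, 0, 1; l2, 1, l1]

/-- The `3 × 3` matrix of the narrow presentation. -/
def Nn (m y k l1 l2 s t : ℤ) : Matrix (Fin 3) (Fin 3) ℤ := Fn m y k l1 l2 s t * Vn l1 l2

/-- Validity: the three functionals are nonnegative on the three vectors. -/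
def Val (m y k l1 l2 s t : ℤ) : Prop :=
  0 ≤ s + l1 * t ∧ -m ≤ s + l1 * t ∧ 0 ≤ l2 * t - s ∧ m ≤ l2 * t - s ∧
  (l1 + l2) * (s + l1 * t) ≤ k + l1 * (y - m) ∧
  (l1 + l2) * (l2 * t - s) ≤ l1 * m + l2 * y - k

lemma nonneg_of_mul_nn {M z : ℤ} (hM : 0 < M) (h : 0 ≤ M * z) : 0 ≤ z := by
  by_contra hz
  push Not at hz
  nlinarith

lemma Val.t_nonneg {m y k l1 l2 s t : ℤ} (hM : 0 < l1 + l2) (h : Val m y k l1 l2 s t) :
    0 ≤ t := by
  obtain ⟨h1, _, h3, _, _, _⟩ := h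
  apply nonneg_of_mul_nn hM
  linarith

lemma Val.mid_nonneg {m y k l1 l2 s t : ℤ} (hM : 0 < l1 + l2) (h : Val m y k l1 l2 s t) :
    0 ≤ y - (l1 + l2) * t := by
  obtain ⟨_, _, _, _, h5, h6⟩ := h
  apply nonneg_of_mul_nn hM
  nlinarith

/-- Adding a vector of the dual cone. -/
lemma nmove_add (m y k l1 l2 s t u v : ℤ) (hl1 : 1 ≤ l1) (hl2 : 1 ≤ l2)
    (h1 : Val m y k l1 l2 s t) (h2 : Val m y k l1 l2 (s + u) (t + v))
    (h3 : 0 ≤ u + l1 * v) (h4 : 0 ≤ l2 * v - u) :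
    Q (Nn m y k l1 l2 (s + u) (t + v)) (Nn m y k l1 l2 s t) := by
  have hM : 0 < l1 + l2 := by linarith
  have ht := h1.t_nonneg hM
  have hmid := h2.mid_nonneg hM
  have hv : 0 ≤ v := by
    apply nonneg_of_mul_nn hM
    linarith
  obtain ⟨a1, a2, a3, a4, a5, a6⟩ := h1
  obtain ⟨b1, b2, b3, b4, b5, b6⟩ := h2
  have hNN : NN ((!![s, t; u, v; k - l1 * m - (l1 + l2) * (s + u), y - (l1 + l2) * (t + v);
      s + m, t] : Matrix (Fin 4) (Fin 2) ℤ) * Vn l1 l2) := by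
    intro i j
    fin_cases i <;> fin_cases j <;>
      simp [Vn, Matrix.mul_apply, Fin.sum_univ_succ] <;> linarith
  have e1 : Q (Nn m y k l1 l2 (s + u) (t + v))
      ((!![s, t; u, v; k - l1 * m - (l1 + l2) * (s + u), y - (l1 + l2) * (t + v);
      s + m, t] : Matrix (Fin 4) (Fin 2) ℤ) *
      (!![-1, 0, 0, 1; l2, l1 + l2, 1, l1] : Matrix (Fin 2) (Fin 4) ℤ)) := by
    refine Q.move (Fn m y k l1 l2 (s + u) (t + v)) (Vn l1 l2) _ _
      (!![1, 1, 0, 0; 0, 0, 1, 0; 0, 1, 0, 1]) ?_ hNN ?_ ?_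
    · intro i j; fin_cases i <;> fin_cases j <;> simp
    · ext i j; fin_cases i <;> fin_cases j <;>
        simp [Fn, Matrix.mul_apply, Fin.sum_univ_succ] <;> ring
    · ext i j; fin_cases i <;> fin_cases j <;>
        simp [Vn, Matrix.mul_apply, Fin.sum_univ_succ] <;> ring
  have e2 : Q (Nn m y k l1 l2 s t)
      ((!![s, t; u, v; k - l1 * m - (l1 + l2) * (s + u), y - (l1 + l2) * (t + v);
      s + m, t] : Matrix (Fin 4) (Fin 2) ℤ) *
      (!![-1, 0, 0, 1; l2, l1 + l2, 1, l1] : Matrix (Fin 2) (Fin 4) ℤ)) := by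
    refine Q.move (Fn m y k l1 l2 s t) (Vn l1 l2) _ _
      (!![1, 0, 0, 0; 0, l1 + l2, 1, 0; 0, 0, 0, 1]) ?_ hNN ?_ ?_
    · intro i j; fin_cases i <;> fin_cases j <;> simp <;> linarith
    · ext i j; fin_cases i <;> fin_cases j <;>
        simp [Fn, Matrix.mul_apply, Fin.sum_univ_succ] <;> ring
    · ext i j; fin_cases i <;> fin_cases j <;>
        simp [Vn, Matrix.mul_apply, Fin.sum_univ_succ]
  exact e1.trans e2.symm

/-- Mirror symmetry. -/
lemma Val.mirror {m y k l1 l2 s t : ℤ} (h : Val m y k l1 l2 s t) :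
    Val m y (-k) l2 l1 (-s - m) t := by
  obtain ⟨h1, h2, h3, h4, h5, h6⟩ := h
  refine ⟨by linarith, by linarith, by linarith, by linarith, ?_, ?_⟩
  · nlinarith
  · nlinarith

/-- Mirror symmetry of the matrices. -/
lemma nmirror (m y k l1 l2 s t : ℤ) (hl1 : 1 ≤ l1) (hl2 : 1 ≤ l2)
    (h : Val m y k l1 l2 s t) :
    Q (Nn m y k l1 l2 s t) (Nn m y (-k) l2 l1 (-s - m) t) := by
  have hM : 0 < l1 + l2 := by linarith
  have ht := h.t_nonneg hM
  have hmid := h.mid_nonneg hM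
  obtain ⟨a1, a2, a3, a4, a5, a6⟩ := h
  refine Q.of_elem (!![0, 0, 1; 0, 1, 0; 1, 0, 0])
    ((!![0, 0, 1; 0, 1, 0; 1, 0, 0] : Matrix (Fin 3) (Fin 3) ℤ) * Nn m y k l1 l2 s t) ?_ ?_ ?_ ?_
  · intro i j; fin_cases i <;> fin_cases j <;> simp
  · intro i j
    fin_cases i <;> fin_cases j <;>
      simp [Nn, Fn, Vn, Matrix.mul_apply, Fin.sum_univ_succ] <;> first | linarith | nlinarith
  · rw [← Matrix.mul_assoc]
    have : (!![0, 0, 1; 0, 1, 0; 1, 0, 0] : Matrix (Fin 3) (Fin 3) ℤ) *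
        !![0, 0, 1; 0, 1, 0; 1, 0, 0] = 1 := by
      ext i j; fin_cases i <;> fin_cases j <;> simp [Matrix.mul_apply, Fin.sum_univ_succ]
    rw [this, Matrix.one_mul]
  · ext i j; fin_cases i <;> fin_cases j <;>
      simp [Nn, Fn, Vn, Matrix.mul_apply, Fin.sum_univ_succ] <;> first | ring1 | (left; ring1)

/-- Shift of the basis. -/
lemma nshift (m y k l1 l2 s t q : ℤ) :
    Nn m y k l1 l2 s t = Nn m y (k - q * (y - m)) (l1 + q) (l2 - q) (s - q * t) t := by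
  ext i j; fin_cases i <;> fin_cases j <;>
      simp [Nn, Fn, Vn, Matrix.mul_apply, Fin.sum_univ_succ] <;> ring

lemma Val.shift {m y k l1 l2 s t : ℤ} (h : Val m y k l1 l2 s t) (q : ℤ) :
    Val m y (k - q * (y - m)) (l1 + q) (l2 - q) (s - q * t) t := by
  obtain ⟨h1, h2, h3, h4, h5, h6⟩ := h
  refine ⟨by linarith, by linarith, by linarith, by linarith, ?_, ?_⟩
  · nlinarith
  · nlinarith

/-- Change of level `(l1, l2) → (l1 + 1, l2)`. -/
lemma nlevel (m y k l1 l2 s t : ℤ) (hl1 : 1 ≤ l1) (hl2 : 1 ≤ l2)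
    (h1 : 0 ≤ s + l1 * t) (h2 : -m ≤ s + l1 * t) (h3 : 0 ≤ l2 * t - s) (h4 : m ≤ l2 * t - s)
    (h5 : (l1 + l2 + 1) * (s + l1 * t) ≤ k + l1 * (y - m) - m)
    (h6 : (l1 + l2 + 1) * (l2 * t - s) ≤ l2 * y - k + (l1 + 1) * m) :
    Val m y k l1 l2 s t ∧ Val m y k (l1 + 1) l2 s t ∧
      Q (Nn m y k l1 l2 s t) (Nn m y k (l1 + 1) l2 s t) := by
  have hM : 0 < l1 + l2 := by linarith
  have ht : 0 ≤ t := by
    apply nonneg_of_mul_nn hM
    linarith
  have hty : (l1 + l2 + 1) * t ≤ y := by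
    have : 0 ≤ (l1 + l2) * (y - (l1 + l2 + 1) * t) := by nlinarith
    have := nonneg_of_mul_nn hM this
    linarith
  have hv1 : Val m y k l1 l2 s t :=
    ⟨h1, h2, h3, h4, by nlinarith, by nlinarith⟩
  have hv2 : Val m y k (l1 + 1) l2 s t :=
    ⟨by linarith, by linarith, h3, h4, by nlinarith, by nlinarith⟩
  refine ⟨hv1, hv2, ?_⟩
  refine Q.move (Fn m y k l1 l2 s t) (Vn l1 l2) (Fn m y k (l1 + 1) l2 s t) (Vn (l1 + 1) l2)
    (!![1, 0, 0; 0, 1, 1; 0, 0, 1]) ?_ ?_ ?_ ?_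
  · intro i j; fin_cases i <;> fin_cases j <;> simp
  · intro i j
    fin_cases i <;> fin_cases j <;>
      simp [Fn, Vn, Matrix.mul_apply, Fin.sum_univ_succ] <;> linarith
  · ext i j; fin_cases i <;> fin_cases j <;>
      simp [Fn, Matrix.mul_apply, Fin.sum_univ_succ] <;> ring
  · ext i j; fin_cases i <;> fin_cases j <;>
      simp [Vn, Matrix.mul_apply, Fin.sum_univ_succ] <;> ring

end Pool.Agent.H33SSE
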