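import Pool.Agent.H33SSE.Ladder

/-!
# Linking the class `k` with the class `p k` for divisors `p` of the eigenvalues
-/

set_option autoImplicit false

namespace Pool.Agent.H33SSE

open Matrix Pool.Agent.TH441.SSE2

/-- The link for a divisor of `y`. -/
lemma ylink (m w p k s t : ℤ) (hp : 1 ≤ p) (h : Val m (p * w) (p * k) p p s t) :
    Val m (p * w) k 1 1 s (p * t) ∧
      Q (Nn m (p * w) (p * k) p p s t) (Nn m (p * w) k 1 1 s (p * t)) := by
  have ht := h.t_nonneg (by linarith)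
  have hmid := h.mid_nonneg (by linarith)
  have hmid' : 0 ≤ w - 2 * t := by
    apply nonneg_of_mul_nn (M := p) (by linarith)
    linarith
  obtain ⟨a1, a2, a3, a4, a5, a6⟩ := h
  have b5 : 2 * (s + p * t) ≤ k + (p * w - m) := by
    have : 0 ≤ p * (k + (p * w - m) - 2 * (s + p * t)) := by nlinarith
    have := nonneg_of_mul_nn (by linarith) this
    linarith
  have b6 : 2 * (p * t - s) ≤ m + p * w - k := by
    have : 0 ≤ p * (m + p * w - k - 2 * (p * t - s)) := by nlinarith
    have := nonneg_of_mul_nn (by linarith) this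
    linarith
  refine ⟨⟨by linarith, by linarith, by linarith, by linarith, by linarith, by linarith⟩, ?_⟩
  have e : Nn m (p * w) k 1 1 s (p * t) =
      (!![s, t; k - m - 2 * s, w - 2 * t; s + m, t] : Matrix (Fin 3) (Fin 2) ℤ) *
      (!![-1, 0, 1; p, p, p] : Matrix (Fin 2) (Fin 3) ℤ) := by
    ext i j; fin_cases i <;> fin_cases j <;>
      simp [Nn, Fn, Vn, Matrix.mul_apply, Fin.sum_univ_succ] <;> ring
  rw [e]
  refine Q.move (Fn m (p * w) (p * k) p p s t) (Vn p p) _ _
    (!![1, 0, 0; 0, p, 0; 0, 0, 1]) ?_ ?_ ?_ ?_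
  · intro i j; fin_cases i <;> fin_cases j <;> simp; linarith
  · intro i j
    fin_cases i <;> fin_cases j <;>
      simp [Vn, Matrix.mul_apply, Fin.sum_univ_succ] <;> linarith
  · ext i j; fin_cases i <;> fin_cases j <;>
      simp [Fn, Matrix.mul_apply, Fin.sum_univ_succ] <;> ring
  · ext i j; fin_cases i <;> fin_cases j <;>
      simp [Vn, Matrix.mul_apply, Fin.sum_univ_succ]

/-- The link for a divisor of `m`. -/
lemma mlink (n y p k s t : ℤ) (hp : 1 ≤ p) (h1 : 0 ≤ s + t) (h2 : 0 ≤ t - s)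
    (h3 : -n ≤ s + t) (h4 : n ≤ t - s)
    (h5 : 0 ≤ (y - 2 * (p * t)) + (k - p * n - 2 * (p * s)))
    (h6 : 0 ≤ (y - 2 * (p * t)) - (k - p * n - 2 * (p * s))) :
    Val (p * n) y (p * k) p p (p * s) t ∧ Val (p * n) y k 1 1 (p * s) (p * t) ∧
      Q (Nn (p * n) y (p * k) p p (p * s) t) (Nn (p * n) y k 1 1 (p * s) (p * t)) := by
  have c1 : 0 ≤ p * (s + t) := mul_nonneg (by linarith) h1
  have c2 : 0 ≤ p * (t - s) := mul_nonneg (by linarith) h2
  have c3 : p * (-n) ≤ p * (s + t) := mul_le_mul_of_nonneg_left h3 (by linarith)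
  have c4 : p * n ≤ p * (t - s) := mul_le_mul_of_nonneg_left h4 (by linarith)
  have c5 : 0 ≤ p * ((y - 2 * (p * t)) + (k - p * n - 2 * (p * s))) :=
    mul_nonneg (by linarith) h5
  have c6 : 0 ≤ p * ((y - 2 * (p * t)) - (k - p * n - 2 * (p * s))) :=
    mul_nonneg (by linarith) h6
  refine ⟨⟨by linarith, by linarith, by linarith, by linarith, by linarith, by linarith⟩,
    ⟨by linarith, by linarith, by linarith, by linarith, by linarith, by linarith⟩, ?_⟩
  have e : Nn (p * n) y (p * k) p p (p * s) t =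
      (!![s, t; k - p * n - 2 * (p * s), y - 2 * (p * t); s + n, t] :
        Matrix (Fin 3) (Fin 2) ℤ) *
      (!![-p, 0, p; p, 1, p] : Matrix (Fin 2) (Fin 3) ℤ) := by
    ext i j; fin_cases i <;> fin_cases j <;>
      simp [Nn, Fn, Vn, Matrix.mul_apply, Fin.sum_univ_succ] <;> ring
  rw [e]
  apply Q.symm
  refine Q.move (Fn (p * n) y k 1 1 (p * s) (p * t)) (Vn 1 1) _ _
    (!![p, 0, 0; 0, 1, 0; 0, 0, p]) ?_ ?_ ?_ ?_
  · intro i j; fin_cases i <;> fin_cases j <;> simp <;> linarith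
  · intro i j
    fin_cases i <;> fin_cases j <;>
      simp [Vn, Matrix.mul_apply, Fin.sum_univ_succ] <;> linarith
  · ext i j; fin_cases i <;> fin_cases j <;>
      simp [Fn, Matrix.mul_apply, Fin.sum_univ_succ] <;> ring
  · ext i j; fin_cases i <;> fin_cases j <;>
      simp [Vn, Matrix.mul_apply, Fin.sum_univ_succ]

/-- Two classes are linked: all their presentations of level `(1, 1)` are. -/
def Lk (m y k k' : ℤ) : Prop :=
  ∀ s t s' t', Val m y k 1 1 s t → Val m y k' 1 1 s' t' →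
    Q (Nn m y k 1 1 s t) (Nn m y k' 1 1 s' t')

lemma good_one (m y k : ℤ) (hk1 : 2 * k ≤ y - m) (hk2 : -(y - m) ≤ 2 * k)
    (hL : 12 * |m| + 36 ≤ y - m) : Good m y k 1 1 := by
  have hm := abs_nonneg m
  exact ⟨le_rfl, le_rfl, by linarith, by linarith⟩

lemma good_p (m y k p : ℤ) (hp : 1 ≤ p) (hk1 : 2 * k ≤ y - m) (hk2 : -(y - m) ≤ 2 * k)
    (hM : 8 * (|m| + 2 * p) ≤ y - m) : Good m y (p * k) p p := by
  have h1 : p * (8 * (|m| + 2 * p)) ≤ p * (2 * k + 2 * (y - m)) :=
    mul_le_mul_of_nonneg_left (by linarith) (by linarith)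
  have h2 : p * (8 * (|m| + 2 * p)) ≤ p * (2 * (y - m) - 2 * k) :=
    mul_le_mul_of_nonneg_left (by linarith) (by linarith)
  exact ⟨hp, hp, by linarith, by linarith⟩

/-- The prime link in reduced form. -/
lemma plink (m y p k k' q : ℤ) (hL : 12 * |m| + 36 ≤ y - m) (hp : 2 ≤ p)
    (hM : 8 * (|m| + 2 * p) ≤ y - m)
    (hk1 : 2 * k ≤ y - m) (hk2 : -(y - m) ≤ 2 * k)
    (hk1' : 2 * k' ≤ y - m) (hk2' : -(y - m) ≤ 2 * k')
    (hq : p * k = k' + q * (y - m)) (hdiv : p ∣ y ∨ p ∣ m) : Lk m y k k' := by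
  have hm := abs_nonneg m
  have hLpos : 0 < y - m := by linarith
  -- bounds for `q`
  have hpk : p * (2 * k) ≤ p * (y - m) := mul_le_mul_of_nonneg_left hk1 (by linarith)
  have hpk' : p * (-(y - m)) ≤ p * (2 * k) := mul_le_mul_of_nonneg_left hk2 (by linarith)
  have hq1 : 2 * q ≤ p + 1 := by
    have : 0 ≤ (y - m) * (p + 1 - 2 * q) := by linarith
    have := nonneg_of_mul_nn hLpos this
    linarith
  have hq2 : -(p + 1) ≤ 2 * q := by
    have : 0 ≤ (y - m) * (2 * q + (p + 1)) := by linarith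
    have := nonneg_of_mul_nn hLpos this
    linarith
  have hGp := good_p m y k p (by linarith) hk1 hk2 hM
  have hGpq : Good m y k' (p + q) (p - q) := by
    obtain ⟨g1, g2, g3, g4⟩ := hGp
    refine ⟨by omega, by omega, ?_, ?_⟩
    · have e1 : p + q + (p - q) = p + p := by ring
      rw [e1]
      have e2 : k' + (p + q) * (y - m) = p * k + p * (y - m) := by rw [hq]; ring
      rw [e2]; exact g3
    · have e1 : p + q + (p - q) = p + p := by ring
      rw [e1]
      have e2 : (p - q) * (y - m) - k' = p * (y - m) - p * k := by rw [hq]; ring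
      rw [e2]; exact g4
  -- the common presentation
  obtain ⟨s, t, hV1, hV2, hQ⟩ : ∃ s t, Val m y (p * k) p p s t ∧ Val m y k 1 1 s (p * t) ∧
      Q (Nn m y (p * k) p p s t) (Nn m y k 1 1 s (p * t)) := by
    rcases hdiv with ⟨w, rfl⟩ | ⟨n, rfl⟩
    · obtain ⟨s, t, h⟩ := nexists m (p * w) (p * k) p p hGp
      exact ⟨s, t, h, ylink m w p k s t (by linarith) h⟩
    · rcases le_total 0 n with hn | hn
      · have e1 : |p * n| = p * n := abs_of_nonneg (mul_nonneg (by linarith) hn)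
        rw [e1] at hL hM hm
        refine ⟨p * 0, n, mlink n y p k 0 n (by linarith) (by linarith) (by linarith)
          (by linarith) (by linarith) (by linarith) (by linarith)⟩
      · have e1 : |p * n| = -(p * n) :=
          abs_of_nonpos (mul_nonpos_of_nonneg_of_nonpos (by linarith) hn)
        rw [e1] at hL hM hm
        refine ⟨p * (-n), -n, mlink n y p k (-n) (-n) (by linarith) (by linarith) (by linarith)
          (by linarith) (by linarith) (by linarith) (by linarith)⟩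
  have hV3 := hV1.shift q
  have hN := nshift m y (p * k) p p s t q
  have e3 : p * k - q * (y - m) = k' := by rw [hq]; ring
  rw [e3] at hV3 hN
  rw [hN] at hQ
  have hG1 := good_one m y k hk1 hk2 hL
  have hdown := ldown m y hL (p + q + (p - q)).toNat k' (p + q) (p - q) hk1' hk2' (by
    have e1 : p + q + (p - q) = 2 * p := by ring
    rw [e1]; exact hM) (Int.self_le_toNat _) hGpq
  intro a b a' b' h h'
  exact ((nconn m y k 1 1 hG1 a b s (p * t) h hV2).trans hQ.symm).trans
    (hdown _ _ a' b' hV3 h')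

lemma Lk.trans {m y a b c : ℤ} (hL : 12 * |m| + 36 ≤ y - m) (hb1 : 2 * b ≤ y - m)
    (hb2 : -(y - m) ≤ 2 * b) (h1 : Lk m y a b) (h2 : Lk m y b c) : Lk m y a c := by
  intro s t s' t' h h'
  obtain ⟨u, v, a1⟩ := nexists m y b 1 1 (good_one m y b hb1 hb2 hL)
  exact (h1 s t u v h a1).trans (h2 u v s' t' a1 h')

lemma Lk.symm {m y a b : ℤ} (h1 : Lk m y a b) : Lk m y b a := by
  intro s t s' t' h h'
  exact (h1 s' t' s t h' h).symm

lemma Lk.refl {m y a : ℤ} (hL : 12 * |m| + 36 ≤ y - m) (ha1 : 2 * a ≤ y - m)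
    (ha2 : -(y - m) ≤ 2 * a) : Lk m y a a :=
  fun s t s' t' h h' => nconn m y a 1 1 (good_one m y a ha1 ha2 hL) s t s' t' h h'

lemma Lk.neg {m y a : ℤ} (hL : 12 * |m| + 36 ≤ y - m) (ha1 : 2 * a ≤ y - m)
    (ha2 : -(y - m) ≤ 2 * a) : Lk m y a (-a) := by
  intro s t s' t' h h'
  exact (nmirror m y a 1 1 s t le_rfl le_rfl h).trans
    (nconn m y (-a) 1 1 (good_one m y (-a) (by linarith) (by linarith) hL) _ _ s' t'
      h.mirror h')

end Pool.Agent.H33SSE
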