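import Pool.Agent.H33SSE.Exit

/-!
# The class of a nonnegative matrix with integer eigenvalues, and shift equivalence
-/

set_option autoImplicit false

namespace Pool.Agent.H33SSE

open Matrix Pool.Agent.TH441.SSE2 Pool.Agent.Y321.SE2

lemma sim_shift (m y k e : ℤ) : Sim !![m, 0; k + e * (y - m), y] !![m, 0; k, y] := by
  refine ⟨!![1, 0; e, 1], by simp [Matrix.det_fin_two], ?_⟩
  ext i j; fin_cases i <;> fin_cases j <;>
    simp [Matrix.mul_apply, Fin.sum_univ_succ] <;> ring

lemma sim_neg (m y k : ℤ) : Sim !![m, 0; -k, y] !![m, 0; k, y] := by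
  refine ⟨!![-1, 0; 0, 1], by simp [Matrix.det_fin_two], ?_⟩
  ext i j; fin_cases i <;> fin_cases j <;>
    simp [Matrix.mul_apply, Fin.sum_univ_succ]

/-- A matrix with an integer eigenvalue is similar to a lower triangular one. -/
lemma exists_tri (a b c d m y : ℤ) (hb : 1 ≤ b) (hT : a + d = y + m)
    (hD : a * d - b * c = y * m) : ∃ k, Sim !![m, 0; k, y] !![a, b; c, d] := by
  obtain ⟨g, hg⟩ : ∃ g : ℤ, g = Int.gcd b (y - a) := ⟨_, rfl⟩
  have hg0 : g ≠ 0 := by
    rw [hg]
    intro h
    have h1 : Int.gcd b (y - a) = 0 := by exact_mod_cast h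
    rw [Int.gcd_eq_zero_iff] at h1
    linarith [h1.1]
  obtain ⟨q, hq⟩ : g ∣ b := by rw [hg]; exact Int.gcd_dvd_left _ _
  obtain ⟨s, hs⟩ : g ∣ (y - a) := by rw [hg]; exact Int.gcd_dvd_right _ _
  have hbez := Int.gcd_eq_gcd_ab b (y - a)
  rw [← hg] at hbez
  obtain ⟨u, hu⟩ : ∃ u, u = Int.gcdA b (y - a) := ⟨_, rfl⟩
  obtain ⟨v, hv⟩ : ∃ v, v = Int.gcdB b (y - a) := ⟨_, rfl⟩
  rw [← hu, ← hv] at hbez
  have hone : q * u + s * v = 1 := by
    have h1 : g * (q * u + s * v) = g * 1 := by
      rw [mul_one]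
      calc g * (q * u + s * v) = (g * q) * u + (g * s) * v := by ring
        _ = b * u + (y - a) * v := by rw [← hq, ← hs]
        _ = g := hbez.symm
    exact mul_left_cancel₀ hg0 h1
  -- eigenvector equations
  have hev1 : a * q + b * s = y * q := by
    have h1 : g * (a * q + b * s) = g * (y * q) := by
      calc g * (a * q + b * s) = a * (g * q) + b * (g * s) := by ring
        _ = a * b + b * (y - a) := by rw [← hq, ← hs]
        _ = y * b := by ring
        _ = y * (g * q) := by rw [← hq]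
        _ = g * (y * q) := by ring
    exact mul_left_cancel₀ hg0 h1
  have hev2 : c * q + d * s = y * s := by
    have h1 : g * (c * q + d * s) = g * (y * s) := by
      calc g * (c * q + d * s) = c * (g * q) + d * (g * s) := by ring
        _ = c * b + d * (y - a) := by rw [← hq, ← hs]
        _ = y * (y - a) := by
          have e1 : d = y + m - a := by linarith
          have e2 : c * b = a * d - y * m := by linarith
          rw [e2, e1]; ring
        _ = y * (g * s) := by rw [← hs]
        _ = g * (y * s) := by ring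
    exact mul_left_cancel₀ hg0 h1
  -- `U = [[v, q], [-u, s]]`
  refine ⟨u * (a * v - b * u) + v * (c * v - d * u), !![v, q; -u, s], ?_, ?_⟩
  · rw [Matrix.det_fin_two_of]
    have : v * s - q * -u = 1 := by linarith
    rw [this]; exact isUnit_one
  · have hd : d = y + m - a := by linarith
    ext i j
    fin_cases i <;> fin_cases j <;>
      simp [Matrix.mul_apply, Fin.sum_univ_succ]
    · -- `v m + q k = a v - b u`
      have e1 : (a * v - b * u) * (q * u + s * v) = a * v - b * u := by rw [hone, mul_one]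
      have e2 : v * m * (q * u + s * v) = v * m := by rw [hone, mul_one]
      rw [← e2]
      have e3 : a * v + -(b * u) = (a * v - b * u) * (q * u + s * v) := by rw [e1]; ring
      rw [e3]
      have e4 : q * (c * v - d * u) = y * s * v - d * s * v - d * q * u := by
        have : c * q = y * s - d * s := by linarith
        calc q * (c * v - d * u) = c * q * v - d * q * u := by ring
          _ = _ := by rw [this]; ring
      have e5 : q * (u * (a * v - b * u) + v * (c * v - d * u)) =
          q * u * (a * v - b * u) + v * (q * (c * v - d * u)) := by ring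
      rw [e5, e4, hd]
      have e6 : b * s = y * q - a * q := by linarith
      have e7 : (a * v - b * u) * (q * u + s * v) =
          q * u * (a * v - b * u) + a * s * v ^ 2 - (b * s) * u * v := by ring
      rw [e7, e6]
      ring
    · linarith
    · have e1 : (c * v - d * u) * (q * u + s * v) = c * v - d * u := by rw [hone, mul_one]
      have e2 : u * m * (q * u + s * v) = u * m := by rw [hone, mul_one]
      rw [← e2]
      have e3 : c * v + -(d * u) = (c * v - d * u) * (q * u + s * v) := by rw [e1]; ring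
      rw [e3]
      have e6 : b * s = y * q - a * q := by linarith
      have e7 : s * (u * (a * v - b * u) + v * (c * v - d * u)) =
          a * s * u * v - (b * s) * u ^ 2 + s * v * (c * v - d * u) := by ring
      have e8 : (c * v - d * u) * (q * u + s * v) =
          (c * q) * u * v - d * q * u ^ 2 + s * v * (c * v - d * u) := by ring
      have e9 : c * q = y * s - d * s := by linarith
      rw [e7, e8, e9, e6, hd]
      ring
    · linarith

/-- The class of a matrix with positive off-diagonal entries is not zero. -/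
lemma tri_ne_zero (a b c d m y : ℤ) (hb : 1 ≤ b) (hc : 1 ≤ c) (hL : 0 < y - m)
    (h : Sim !![m, 0; 0, y] !![a, b; c, d]) : False := by
  obtain ⟨U, hU, h1⟩ := h
  have hUeta := Matrix.eta_fin_two U
  obtain ⟨p, hp⟩ : ∃ p, p = U 0 0 := ⟨_, rfl⟩
  obtain ⟨q, hq⟩ : ∃ q, q = U 0 1 := ⟨_, rfl⟩
  obtain ⟨r, hr⟩ : ∃ r, r = U 1 0 := ⟨_, rfl⟩
  obtain ⟨s, hs⟩ : ∃ s, s = U 1 1 := ⟨_, rfl⟩
  rw [← hp, ← hq, ← hr, ← hs] at hUeta
  rw [hUeta] at hU h1
  rw [Matrix.det_fin_two_of] at hU
  have k00 := congrFun (congrFun h1 0) 0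
  have k01 := congrFun (congrFun h1 0) 1
  have k10 := congrFun (congrFun h1 1) 0
  have k11 := congrFun (congrFun h1 1) 1
  simp [Matrix.mul_apply, Fin.sum_univ_succ] at k00 k01 k10 k11
  -- `b * det = p q (y - m)`
  have e1 : b * (p * s - q * r) = p * q * (y - m) := by
    linear_combination q * k00 - p * k01
  have e2 : c * (p * s - q * r) = -(r * s * (y - m)) := by
    linear_combination r * k11 - s * k10
  have e3 : (p * s - q * r) * (p * s - q * r) = 1 := by
    rcases Int.isUnit_iff.mp hU with h | h <;> rw [h] <;> norm_num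
  have e4 : (p * q) * (r * s) < 0 := by
    by_contra hneg
    push Not at hneg
    have h2 : 0 ≤ (p * q) * (r * s) * ((y - m) * (y - m)) :=
      mul_nonneg hneg (mul_nonneg hL.le hL.le)
    have h3 : (b * (p * s - q * r)) * (c * (p * s - q * r)) =
        -((p * q) * (r * s) * ((y - m) * (y - m))) := by rw [e1, e2]; ring
    have h4 : (b * (p * s - q * r)) * (c * (p * s - q * r)) = b * c := by
      calc (b * (p * s - q * r)) * (c * (p * s - q * r)) =
          b * c * ((p * s - q * r) * (p * s - q * r)) := by ring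
        _ = b * c := by rw [e3, mul_one]
    have h5 : 1 ≤ b * c := by
      have : 1 * 1 ≤ b * c := mul_le_mul hb hc (by norm_num) (by linarith)
      linarith
    linarith
  have e5 : (p * s) * (q * r) < 0 := by
    have : (p * s) * (q * r) = (p * q) * (r * s) := by ring
    rw [this]; exact e4
  have e6 : (p * s - q * r) * (p * s - q * r) =
      (p * s + q * r) * (p * s + q * r) - 4 * ((p * s) * (q * r)) := by ring
  have e7 := mul_self_nonneg (p * s + q * r)
  rw [e3] at e6
  have e8 : (p * s) * (q * r) ≤ -1 := by omega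
  linarith

/-- The class of a nonnegative matrix with positive off-diagonal entries. -/
lemma exists_class {A : Matrix (Fin 2) (Fin 2) ℤ} (m y : ℤ) (p1 : 1 ≤ A 0 1)
    (p2 : 1 ≤ A 1 0) (hT : A.trace = y + m) (hD : A.det = y * m) (hL : 0 < y - m) :
    ∃ k, 1 ≤ k ∧ 2 * k ≤ y - m ∧ Sim !![m, 0; k, y] A := by
  rw [Matrix.trace_fin_two] at hT
  rw [Matrix.det_fin_two] at hD
  obtain ⟨k0, hk0⟩ := exists_tri (A 0 0) (A 0 1) (A 1 0) (A 1 1) m y p1 hT hD
  rw [← Matrix.eta_fin_two A] at hk0
  obtain ⟨k1, ⟨e, he⟩, h1, h2⟩ := exists_rep (y - m) k0 hL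
  have hk1 : Sim !![m, 0; k1, y] A := by
    have h3 := sim_shift m y k0 e
    have e1 : k0 + e * (y - m) = k1 := by linarith
    rw [e1] at h3
    exact h3.trans hk0
  rcases lt_trichotomy k1 0 with h | h | h
  · refine ⟨-k1, by linarith, by linarith, (sim_neg m y k1).trans hk1⟩
  · exfalso
    rw [h, Matrix.eta_fin_two A] at hk1
    exact tri_ne_zero _ _ _ _ m y p1 p2 hL hk1
  · exact ⟨k1, by linarith, h1, hk1⟩

/-- Shift equivalence over `ℤ` of lower triangular matrices: the classes are linked. -/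
lemma se_classes (m y a b : ℤ) (hm : m ≠ 0) (hy : 497 * |m| ≤ y)
    (R : Matrix (Fin 2) (Fin 2) ℤ) (h1 : !![m, 0; a, y] * R = R * !![m, 0; b, y]) (l : ℕ)
    (hR0 : R.det ≠ 0) (hR : R.det ∣ (m * y) ^ l) : E m y a b := by
  have hm1 : 1 ≤ |m| := Int.one_le_abs hm
  have hml := le_abs_self m
  have hL : 12 * |m| + 36 ≤ y - m := by linarith
  have k01 := congrFun (congrFun h1 0) 1
  have k10 := congrFun (congrFun h1 1) 0
  simp [Matrix.mul_apply, Fin.sum_univ_succ] at k01 k10
  have hr01 : R 0 1 = 0 := by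
    have h2 : (y - m) * R 0 1 = 0 := by linear_combination -k01
    rcases mul_eq_zero.mp h2 with h | h
    · linarith
    · exact h
  rw [Matrix.det_fin_two, hr01, zero_mul, sub_zero] at hR0 hR
  have d1 : R 0 0 ∣ (m * y) ^ l := (Dvd.intro _ rfl).trans hR
  have d2 : R 1 1 ∣ (m * y) ^ l := (Dvd.intro_left _ rfl).trans hR
  have n1 : R 0 0 ≠ 0 := left_ne_zero_of_mul hR0
  have n2 : R 1 1 ≠ 0 := right_ne_zero_of_mul hR0
  have f1 := E.dvd hm hy l (R 0 0) n1 d1 a
  have f2 := E.dvd hm hy l (R 1 1) n2 d2 b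
  have f3 : E m y (R 0 0 * a) (R 1 1 * b) := by
    apply E.congr hL
    exact ⟨-R 1 0, by linear_combination k10⟩
  exact (f1.trans hL f3).trans hL f2.symm

/-- Main theorem for integer eigenvalues. -/
theorem main_rat {A B : Matrix (Fin 2) (Fin 2) ℤ} (m y : ℤ) (hA : NN A) (hB : NN B)
    (p1 : 1 ≤ A 0 1) (p2 : 1 ≤ A 1 0) (p3 : 1 ≤ B 0 1) (p4 : 1 ≤ B 1 0)
    (hT : A.trace = y + m) (hD : A.det = y * m) (hT' : B.trace = y + m) (hD' : B.det = y * m)
    (hm : m ≠ 0) (hy : 497 * |m| ≤ y) (hTD : 500 * |y * m| ≤ (y + m) ^ 2)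
    (R S : Matrix (Fin 2) (Fin 2) ℤ) (l : ℕ) (h1 : A * R = R * B) (h2 : A ^ l = R * S) :
    Q A B := by
  have hm1 : 1 ≤ |m| := Int.one_le_abs hm
  have hml := le_abs_self m
  have hmr := neg_abs_le m
  have hL : 12 * |m| + 36 ≤ y - m := by linarith
  obtain ⟨a, a1, a2, hsA⟩ := exists_class m y p1 p2 hT hD (by linarith)
  obtain ⟨b, b1, b2, hsB⟩ := exists_class m y p3 p4 hT' hD' (by linarith)
  obtain ⟨sa, ta, hVa⟩ := nexists m y a 1 1 (good_one m y a a2 (by linarith) hL)
  obtain ⟨sb, tb, hVb⟩ := nexists m y b 1 1 (good_one m y b b2 (by linarith) hL)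
  have qa := mat_class m y a hA p1 p2 hT hD hm hy hTD a1 a2 hsA sa ta hVa
  have qb := mat_class m y b hB p3 p4 hT' hD' hm hy hTD b1 b2 hsB sb tb hVb
  obtain ⟨U, hU, hUA⟩ := hsA
  obtain ⟨V, hV, hVB⟩ := hsB
  have hUU := inv_mul_of_det_one hU
  have hVV := inv_mul_of_det_one hV
  have hy0 : y * m ≠ 0 := mul_ne_zero (by
    intro h
    rw [h] at hy
    linarith) hm
  have hRdet : R.det ∣ (y * m) ^ l := by
    have h3 := congrArg Matrix.det h2
    rw [Matrix.det_pow, hD, Matrix.det_mul] at h3
    exact ⟨S.det, h3⟩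
  have hR0 : R.det ≠ 0 := by
    intro h
    rw [h, zero_dvd_iff] at hRdet
    exact pow_ne_zero l hy0 hRdet
  have hlink : E m y a b := by
    refine se_classes m y a b hm hy (U⁻¹ * R * V) ?_ l ?_ ?_
    · calc !![m, 0; a, y] * (U⁻¹ * R * V) = (U⁻¹ * U) * !![m, 0; a, y] * (U⁻¹ * R * V) := by
            rw [hUU.1, Matrix.one_mul]
        _ = U⁻¹ * (U * !![m, 0; a, y]) * U⁻¹ * R * V := by simp only [Matrix.mul_assoc]
        _ = U⁻¹ * A * (U * U⁻¹) * R * V := by rw [hUA]; simp only [Matrix.mul_assoc]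
        _ = U⁻¹ * (A * R) * V := by rw [hUU.2, Matrix.mul_one]; simp only [Matrix.mul_assoc]
        _ = U⁻¹ * R * (B * V) := by rw [h1]; simp only [Matrix.mul_assoc]
        _ = U⁻¹ * R * V * !![m, 0; b, y] := by rw [← hVB]; simp only [Matrix.mul_assoc]
    · rw [Matrix.det_mul, Matrix.det_mul]
      exact mul_ne_zero (mul_ne_zero (Matrix.isUnit_nonsing_inv_det U hU).ne_zero hR0)
        hV.ne_zero
    · rw [Matrix.det_mul, Matrix.det_mul]
      have e1 : (U⁻¹).det * R.det * V.det ∣ R.det := by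
        have u1 : IsUnit ((U⁻¹).det * V.det) := (Matrix.isUnit_nonsing_inv_det U hU).mul hV
        have e2 : (U⁻¹).det * R.det * V.det = (U⁻¹).det * V.det * R.det := by ring
        rw [e2]
        exact (u1.mul_left_dvd).mpr dvd_rfl
      have e3 : (m * y) ^ l = (y * m) ^ l := by rw [mul_comm]
      rw [e3]
      exact e1.trans hRdet
  have hLk := hlink a b (by simp) (by simp) a2 (by linarith) b2 (by linarith)
  exact (qa.trans (hLk sa ta sb tb hVa hVb)).trans qb.symm

end Pool.Agent.H33SSE
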